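import Pool.Agent.Q302.BS.Lac

/-!
# Rademacher-Menshov in a dyadic block of radii, and the final assembly
-/

set_option autoImplicit false

open MeasureTheory Set Filter Topology SchwartzMap FourierTransform
open scoped ENNReal NNReal Real RealInnerProductSpace ComplexConjugate

namespace Pool.Agent.Q302.BS

variable {n : ℕ}

lemma rm_step (z : ℕ → ℂ) (m i : ℕ) (hi : i ≤ 2 ^ m) (l : ℕ) (hl : l ≤ m) :
    ‖z (i / 2 ^ l * 2 ^ l) - z (i / 2 ^ (l + 1) * 2 ^ (l + 1))‖ ^ 2 ≤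
      ∑ b ∈ Finset.range (2 ^ (m - l)), ‖z ((b + 1) * 2 ^ l) - z (b * 2 ^ l)‖ ^ 2 := by
  have h1 : i / 2 ^ (l + 1) = i / 2 ^ l / 2 := by
    rw [pow_succ, Nat.div_div_eq_div_mul]
  set q := i / 2 ^ l with hq
  have h2 : i / 2 ^ (l + 1) * 2 ^ (l + 1) = q / 2 * 2 * 2 ^ l := by
    rw [h1, pow_succ]; ring
  rw [h2]
  rcases Nat.even_or_odd' q with ⟨c, hc | hc⟩
  · have h3 : q / 2 * 2 = q := by omega
    rw [h3, sub_self, norm_zero]
    rw [zero_pow (by norm_num)]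
    positivity
  · have h3 : q / 2 * 2 = 2 * c := by omega
    rw [h3, hc]
    have h4 : q ≤ 2 ^ (m - l) := by
      rw [hq]
      refine Nat.div_le_of_le_mul ?_
      rw [← pow_add]
      have : l + (m - l) = m := by omega
      rw [this]
      exact hi
    exact Finset.single_le_sum (f := fun b => ‖z ((b + 1) * 2 ^ l) - z (b * 2 ^ l)‖ ^ 2)
      (fun _ _ => sq_nonneg _) (Finset.mem_range.2 (by omega))

/-- the pointwise inequality of Rademacher and Menshov -/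
theorem rm (z : ℕ → ℂ) (m i : ℕ) (hi : i ≤ 2 ^ m) :
    ‖z i - z 0‖ ^ 2 ≤ (m + 1) * ∑ l ∈ Finset.range (m + 1),
      ∑ b ∈ Finset.range (2 ^ (m - l)), ‖z ((b + 1) * 2 ^ l) - z (b * 2 ^ l)‖ ^ 2 := by
  have h0 : i / 2 ^ (m + 1) * 2 ^ (m + 1) = 0 := by
    have : i / 2 ^ (m + 1) = 0 := Nat.div_eq_of_lt (lt_of_le_of_lt hi
      (Nat.pow_lt_pow_right (by norm_num) (Nat.lt_succ_self m)))
    rw [this, zero_mul]
  have htel : z i - z 0 = ∑ l ∈ Finset.range (m + 1),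
      (z (i / 2 ^ l * 2 ^ l) - z (i / 2 ^ (l + 1) * 2 ^ (l + 1))) := by
    rw [Finset.sum_range_sub' (fun l => z (i / 2 ^ l * 2 ^ l)), h0]
    simp
  have h1 : ‖z i - z 0‖ ≤ ∑ l ∈ Finset.range (m + 1),
      ‖z (i / 2 ^ l * 2 ^ l) - z (i / 2 ^ (l + 1) * 2 ^ (l + 1))‖ := by
    rw [htel]; exact norm_sum_le _ _
  have h2 := sq_sum_le_card_mul_sum_sq (s := Finset.range (m + 1))
    (f := fun l => ‖z (i / 2 ^ l * 2 ^ l) - z (i / 2 ^ (l + 1) * 2 ^ (l + 1))‖)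
  rw [Finset.card_range] at h2
  calc ‖z i - z 0‖ ^ 2 ≤ (∑ l ∈ Finset.range (m + 1),
        ‖z (i / 2 ^ l * 2 ^ l) - z (i / 2 ^ (l + 1) * 2 ^ (l + 1))‖) ^ 2 :=
        pow_le_pow_left₀ (norm_nonneg _) h1 2
    _ ≤ ((m + 1 : ℕ) : ℝ) * ∑ l ∈ Finset.range (m + 1),
        ‖z (i / 2 ^ l * 2 ^ l) - z (i / 2 ^ (l + 1) * 2 ^ (l + 1))‖ ^ 2 := h2
    _ ≤ ((m + 1 : ℕ) : ℝ) * ∑ l ∈ Finset.range (m + 1),
      ∑ b ∈ Finset.range (2 ^ (m - l)), ‖z ((b + 1) * 2 ^ l) - z (b * 2 ^ l)‖ ^ 2 := by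
        gcongr with l hl
        rw [Finset.mem_range] at hl
        exact rm_step z m i hi l (by omega)
    _ = _ := by push_cast; ring

/-- the majorant of a block -/
noncomputable def Bk (g : V n → ℂ) (a : ℕ → ℝ) (m : ℕ) (x : V n) : ℝ≥0∞ :=
  (m + 1) * ∑ l ∈ Finset.range (m + 1), ∑ b ∈ Finset.range (2 ^ (m - l)),
    ‖D g (a (b * 2 ^ l)) (a ((b + 1) * 2 ^ l)) x‖ₑ ^ 2

lemma measurable_Bk {g : V n → ℂ} (hg : LocInt g) (a : ℕ → ℝ) (m : ℕ) : Measurable (Bk g a m) := by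
  unfold Bk
  exact (Finset.measurable_fun_sum _ fun l _ => Finset.measurable_fun_sum _ fun b _ =>
    (measurable_D hg _ _).pow_const 2).const_mul _

lemma Bk_bound {g : V n → ℂ} (hg : LocInt g) {a : ℕ → ℝ} (ha : Monotone a) (m i : ℕ)
    (hi : i ≤ 2 ^ m) (x : V n) : ‖S g (a i) x - S g (a 0) x‖ₑ ^ 2 ≤ Bk g a m x := by
  have h := rm (fun i => S g (a i) x) m i hi
  have h1 : ∀ l b : ℕ, S g (a ((b + 1) * 2 ^ l)) x - S g (a (b * 2 ^ l)) x =
      D g (a (b * 2 ^ l)) (a ((b + 1) * 2 ^ l)) x := by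
    intro l b
    rw [S_sub hg (ha (Nat.mul_le_mul_right _ (Nat.le_succ b))) x, add_sub_cancel_left]
  simp_rw [h1] at h
  rw [← ofReal_norm, ← ENNReal.ofReal_pow (norm_nonneg _)]
  refine (ENNReal.ofReal_le_ofReal h).trans (le_of_eq ?_)
  unfold Bk
  rw [ENNReal.ofReal_mul (by positivity), ENNReal.ofReal_sum_of_nonneg (fun l _ => by positivity)]
  congr 1
  · rw [ENNReal.ofReal_add (by positivity) (by norm_num), ENNReal.ofReal_natCast,
      ENNReal.ofReal_one]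
  · refine Finset.sum_congr rfl fun l _ => ?_
    rw [ENNReal.ofReal_sum_of_nonneg (fun b _ => by positivity)]
    refine Finset.sum_congr rfl fun b _ => ?_
    rw [ENNReal.ofReal_pow (norm_nonneg _), ofReal_norm]

lemma lintegral_Bk {g : V n → ℂ} (hg : LocInt g) {a : ℕ → ℝ} (ha : Monotone a) (m : ℕ) :
    ∫⁻ x, gw x * Bk g a m x ≤
      ((m : ℝ≥0∞) + 1) ^ 2 * ∫⁻ ξ in shell (a 0) (a (2 ^ m)), ‖g ξ‖ₑ ^ 2 := by
  set M := ∫⁻ ξ in shell (a 0) (a (2 ^ m)), ‖g ξ‖ₑ ^ 2 with hM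
  have hD : ∀ c d : ℝ, Measurable fun x : V n => gw x * ‖D g c d x‖ₑ ^ 2 := fun c d =>
    measurable_gw.mul ((measurable_D hg c d).pow_const 2)
  have hlev : ∀ l ∈ Finset.range (m + 1), ∫⁻ x, ∑ b ∈ Finset.range (2 ^ (m - l)),
      gw x * ‖D g (a (b * 2 ^ l)) (a ((b + 1) * 2 ^ l)) x‖ₑ ^ 2 ≤ M := by
    intro l hl
    rw [Finset.mem_range] at hl
    rw [lintegral_finsetSum' (f := fun (b : ℕ) x => gw x *
      ‖D g (a (b * 2 ^ l)) (a ((b + 1) * 2 ^ l)) x‖ₑ ^ 2) _ fun b _ => (hD _ _).aemeasurable]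
    calc ∑ b ∈ Finset.range (2 ^ (m - l)), ∫⁻ x, gw x *
          ‖D g (a (b * 2 ^ l)) (a ((b + 1) * 2 ^ l)) x‖ₑ ^ 2
        ≤ ∑ b ∈ Finset.range (2 ^ (m - l)),
          ∫⁻ ξ in shell (a (b * 2 ^ l)) (a ((b + 1) * 2 ^ l)), ‖g ξ‖ₑ ^ 2 :=
          Finset.sum_le_sum fun b _ => D_local_one hg _ _
      _ = ∫⁻ ξ in ⋃ b ∈ Finset.range (2 ^ (m - l)),
          (shell (a (b * 2 ^ l)) (a ((b + 1) * 2 ^ l)) : Set (V n)), ‖g ξ‖ₑ ^ 2 := by
          rw [lintegral_biUnion_finset]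
          · intro b _ c _ hbc
            simp only [Function.onFun]
            rw [Set.disjoint_left]
            intro ξ h1 h2
            obtain ⟨h3, h4⟩ := h1
            obtain ⟨h5, h6⟩ := h2
            rcases lt_or_gt_of_ne hbc with h | h
            · have h7 : a ((b + 1) * 2 ^ l) ≤ a (c * 2 ^ l) :=
                ha (Nat.mul_le_mul_right _ h)
              linarith
            · have h7 : a ((c + 1) * 2 ^ l) ≤ a (b * 2 ^ l) :=
                ha (Nat.mul_le_mul_right _ h)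
              linarith
          · intro b _
            exact measurableSet_shell _ _
      _ ≤ M := by
          refine lintegral_mono_set ?_
          intro ξ hξ
          simp only [mem_iUnion, Finset.mem_range] at hξ
          obtain ⟨b, hb, h1, h2⟩ := hξ
          refine ⟨lt_of_le_of_lt (ha (Nat.zero_le _)) h1, h2.trans (ha ?_)⟩
          calc (b + 1) * 2 ^ l ≤ 2 ^ (m - l) * 2 ^ l := Nat.mul_le_mul_right _ hb
            _ = 2 ^ m := by rw [← pow_add, Nat.sub_add_cancel (by omega)]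
  have hfin : ((m : ℝ≥0∞) + 1) ≠ ⊤ := ENNReal.add_ne_top.2 ⟨ENNReal.natCast_ne_top m, by norm_num⟩
  calc ∫⁻ x, gw x * Bk g a m x
      = ∫⁻ x, ((m : ℝ≥0∞) + 1) * ∑ l ∈ Finset.range (m + 1), ∑ b ∈ Finset.range (2 ^ (m - l)),
          gw x * ‖D g (a (b * 2 ^ l)) (a ((b + 1) * 2 ^ l)) x‖ₑ ^ 2 := by
        refine lintegral_congr fun x => ?_
        unfold Bk
        rw [← mul_assoc, mul_comm (gw x), mul_assoc, Finset.mul_sum]
        congr 1
        refine Finset.sum_congr rfl fun l _ => ?_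
        rw [Finset.mul_sum]
    _ = ((m : ℝ≥0∞) + 1) * ∫⁻ x, ∑ l ∈ Finset.range (m + 1), ∑ b ∈ Finset.range (2 ^ (m - l)),
          gw x * ‖D g (a (b * 2 ^ l)) (a ((b + 1) * 2 ^ l)) x‖ₑ ^ 2 :=
        lintegral_const_mul' _ _ hfin
    _ = ((m : ℝ≥0∞) + 1) * ∑ l ∈ Finset.range (m + 1), ∫⁻ x,
          ∑ b ∈ Finset.range (2 ^ (m - l)),
          gw x * ‖D g (a (b * 2 ^ l)) (a ((b + 1) * 2 ^ l)) x‖ₑ ^ 2 := by
        rw [lintegral_finsetSum' _ fun l _ => (Finset.measurable_fun_sum _ fun b _ =>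
          hD _ _).aemeasurable]
    _ ≤ ((m : ℝ≥0∞) + 1) * ∑ _l ∈ Finset.range (m + 1), M :=
        mul_le_mul_right (Finset.sum_le_sum hlev) _
    _ = ((m : ℝ≥0∞) + 1) ^ 2 * M := by
        rw [Finset.sum_const, Finset.card_range, nsmul_eq_mul]
        push_cast
        ring

/-- an enumeration of a finite set of naturals in `[c, d)` by a monotone sequence from `c` to `d` -/
lemma exists_enum (K : Finset ℕ) (c d : ℕ) (hcd : c ≤ d) (hK : ∀ k ∈ K, c ≤ k ∧ k ≤ d) :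
    ∃ a : ℕ → ℕ, Monotone a ∧ a 0 = c ∧ (∀ i, a i ≤ d) ∧
      ∀ k ∈ K, ∃ i ≤ K.card, a i = k := by
  classical
  refine ⟨fun i => if h : ∃ k, c ≤ k ∧ k ≤ d ∧ i ≤ (K.filter (· ≤ k)).card then Nat.find h else d,
    ?_, ?_, ?_, ?_⟩
  · intro i i' hii
    show (if h : ∃ k, c ≤ k ∧ k ≤ d ∧ i ≤ (K.filter (· ≤ k)).card then Nat.find h else d) ≤
      (if h : ∃ k, c ≤ k ∧ k ≤ d ∧ i' ≤ (K.filter (· ≤ k)).card then Nat.find h else d)
    by_cases h' : ∃ k, c ≤ k ∧ k ≤ d ∧ i' ≤ (K.filter (· ≤ k)).card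
    · have h : ∃ k, c ≤ k ∧ k ≤ d ∧ i ≤ (K.filter (· ≤ k)).card := by
        obtain ⟨k, h1, h2, h3⟩ := h'
        exact ⟨k, h1, h2, hii.trans h3⟩
      rw [dif_pos h, dif_pos h']
      obtain ⟨h1, h2, h3⟩ := Nat.find_spec h'
      exact Nat.find_min' h ⟨h1, h2, hii.trans h3⟩
    · rw [dif_neg h']
      by_cases h : ∃ k, c ≤ k ∧ k ≤ d ∧ i ≤ (K.filter (· ≤ k)).card
      · rw [dif_pos h]
        exact (Nat.find_spec h).2.1
      · rw [dif_neg h]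
  · have h : ∃ k, c ≤ k ∧ k ≤ d ∧ 0 ≤ (K.filter (· ≤ k)).card := ⟨c, le_rfl, hcd, Nat.zero_le _⟩
    show (if h : ∃ k, c ≤ k ∧ k ≤ d ∧ 0 ≤ (K.filter (· ≤ k)).card then Nat.find h else d) = c
    rw [dif_pos h]
    exact le_antisymm (Nat.find_min' h ⟨le_rfl, hcd, Nat.zero_le _⟩) (Nat.find_spec h).1
  · intro i
    show (if h : ∃ k, c ≤ k ∧ k ≤ d ∧ i ≤ (K.filter (· ≤ k)).card then Nat.find h else d) ≤ d
    by_cases h : ∃ k, c ≤ k ∧ k ≤ d ∧ i ≤ (K.filter (· ≤ k)).card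
    · rw [dif_pos h]
      exact (Nat.find_spec h).2.1
    · rw [dif_neg h]
  · intro k hk
    refine ⟨(K.filter (· ≤ k)).card, Finset.card_le_card (Finset.filter_subset _ _), ?_⟩
    have h : ∃ k', c ≤ k' ∧ k' ≤ d ∧ (K.filter (· ≤ k)).card ≤ (K.filter (· ≤ k')).card :=
      ⟨k, (hK k hk).1, (hK k hk).2, le_rfl⟩
    show (if h : ∃ k', c ≤ k' ∧ k' ≤ d ∧ (K.filter (· ≤ k)).card ≤ (K.filter (· ≤ k')).card
      then Nat.find h else d) = k
    rw [dif_pos h]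
    refine le_antisymm (Nat.find_min' h ⟨(hK k hk).1, (hK k hk).2, le_rfl⟩) ?_
    by_contra hcon
    push Not at hcon
    obtain ⟨_, _, h3⟩ := Nat.find_spec h
    have h4 : K.filter (· ≤ Nat.find h) ⊂ K.filter (· ≤ k) := by
      rw [Finset.ssubset_iff_of_subset]
      · refine ⟨k, Finset.mem_filter.2 ⟨hk, le_rfl⟩, fun h5 => ?_⟩
        have := (Finset.mem_filter.1 h5).2
        omega
      · intro y hy
        rw [Finset.mem_filter] at hy ⊢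
        exact ⟨hy.1, hy.2.trans hcon.le⟩
    exact absurd (Finset.card_lt_card h4) (not_lt.2 h3)

end Pool.Agent.Q302.BS
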