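import Pool.Agent.Q302.BS.Local

/-!
# Unit windows of radii

`S g R x = ∫_{‖ξ‖ ≤ R} g(ξ) e^(2πi⟨x,ξ⟩) dξ`. The supremum over `R` in a unit window is controlled
by the mass of `g` in the corresponding unit shell.
-/

set_option autoImplicit false

open MeasureTheory Set Filter Topology
open scoped ENNReal NNReal Real RealInnerProductSpace ComplexConjugate

namespace Pool.Agent.Q302.BS

variable {n : ℕ}

/-- the half open shell -/
def shell (a b : ℝ) : Set (V n) := {ξ | a < ‖ξ‖ ∧ ‖ξ‖ ≤ b}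

/-- the ball sum with Fourier data `g` -/
noncomputable def S (g : V n → ℂ) (R : ℝ) (x : V n) : ℂ :=
  IF ({ξ : V n | ‖ξ‖ ≤ R}.indicator g) x

/-- the increments -/
noncomputable def D (g : V n → ℂ) (a b : ℝ) (x : V n) : ℂ := IF ((shell a b).indicator g) x

/-- `g` is integrable on balls -/
def LocInt (g : V n → ℂ) : Prop := ∀ R : ℝ, Integrable ({ξ : V n | ‖ξ‖ ≤ R}.indicator g)

lemma measurableSet_ball' (R : ℝ) : MeasurableSet {ξ : V n | ‖ξ‖ ≤ R} :=
  (isClosed_le continuous_norm continuous_const).measurableSet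

lemma measurableSet_shell (a b : ℝ) : MeasurableSet (shell a b : Set (V n)) := by
  have h : (shell a b : Set (V n)) = {ξ : V n | ‖ξ‖ ≤ a}ᶜ ∩ {ξ : V n | ‖ξ‖ ≤ b} := by
    ext ξ; simp [shell]
  rw [h]
  exact (measurableSet_ball' a).compl.inter (measurableSet_ball' b)

lemma LocInt.shell {g : V n → ℂ} (hg : LocInt g) (a b : ℝ) :
    Integrable ((shell a b : Set (V n)).indicator g) := by
  have h : (BS.shell a b : Set (V n)).indicator g =
      (BS.shell a b : Set (V n)).indicator ({ξ : V n | ‖ξ‖ ≤ b}.indicator g) := by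
    rw [indicator_indicator]
    congr 1
    ext ξ
    simp only [BS.shell, mem_ofPred_eq, mem_inter_iff]
    tauto
  rw [h]
  exact (hg b).indicator (measurableSet_shell a b)

lemma integrable_mul_ex {g : V n → ℂ} (hg : Integrable g) (x : V n) :
    Integrable fun ξ => g ξ * ex x ξ := by
  have h : Integrable fun ξ => ex x ξ * g ξ := by
    refine hg.bdd_mul (c := 1) ?_ (Eventually.of_forall fun ξ => (norm_ex _ _).le)
    exact (continuous_ex.comp (by fun_prop : Continuous fun ξ : V n => (x, ξ))).aestronglyMeasurable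
  exact h.congr (Eventually.of_forall fun ξ => mul_comm _ _)

lemma S_sub {g : V n → ℂ} (hg : LocInt g) {a b : ℝ} (hab : a ≤ b) (x : V n) :
    S g b x = S g a x + D g a b x := by
  unfold S D IF
  rw [← integral_add (integrable_mul_ex (hg a) x) (integrable_mul_ex (hg.shell a b) x)]
  refine integral_congr_ae (Eventually.of_forall fun ξ => ?_)
  simp only
  rw [← add_mul]
  congr 1
  by_cases h1 : ‖ξ‖ ≤ a
  · have h2 : ‖ξ‖ ≤ b := h1.trans hab
    have h3 : ξ ∉ (shell a b : Set (V n)) := fun h => absurd h.1 (not_lt.2 h1)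
    rw [indicator_of_mem (show ξ ∈ {ξ : V n | ‖ξ‖ ≤ b} from h2),
      indicator_of_mem (show ξ ∈ {ξ : V n | ‖ξ‖ ≤ a} from h1), indicator_of_notMem h3, add_zero]
  · by_cases h2 : ‖ξ‖ ≤ b
    · rw [indicator_of_mem (show ξ ∈ {ξ : V n | ‖ξ‖ ≤ b} from h2),
        indicator_of_notMem (show ξ ∉ {ξ : V n | ‖ξ‖ ≤ a} from h1),
        indicator_of_mem (show ξ ∈ (shell a b : Set (V n)) from ⟨not_le.1 h1, h2⟩), zero_add]
    · rw [indicator_of_notMem (show ξ ∉ {ξ : V n | ‖ξ‖ ≤ b} from h2),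
        indicator_of_notMem (show ξ ∉ {ξ : V n | ‖ξ‖ ≤ a} from h1),
        indicator_of_notMem (show ξ ∉ (shell a b : Set (V n)) from fun h => h2 h.2), zero_add]

/-- the local estimate for increments -/
lemma D_local (hn : 1 ≤ n) {g : V n → ℂ} (hg : LocInt g) {a b : ℝ} (ha : 0 ≤ a) (hab : a ≤ b) :
    ∫⁻ x, gw x * ‖D g a b x‖ₑ ^ 2 ≤
      ENNReal.ofReal (2 * n * Real.sqrt n * (b - a)) * ∫⁻ ξ in shell a b, ‖g ξ‖ₑ ^ 2 := by
  have h := local_bound ((shell a b : Set (V n)).indicator g) (hg.shell a b) (shell a b)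
    (measurableSet_shell a b) (fun ξ hξ => indicator_of_notMem hξ g)
    (ENNReal.ofReal (2 * n * Real.sqrt n * (b - a))) (fun ξ => by
      refine le_trans (lintegral_mono_set ?_) (shell_bound hn ha hab ξ)
      intro η hη
      exact ⟨hη.1.le, hη.2⟩)
  refine h.trans (le_of_eq ?_)
  congr 1
  rw [← lintegral_indicator (measurableSet_shell a b)]
  refine lintegral_congr fun ξ => ?_
  by_cases hξ : ξ ∈ (shell a b : Set (V n))
  · simp [hξ]
  · simp [hξ]

/-- the local estimate without gain -/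
lemma D_local_one {g : V n → ℂ} (hg : LocInt g) (a b : ℝ) :
    ∫⁻ x, gw x * ‖D g a b x‖ₑ ^ 2 ≤ ∫⁻ ξ in shell a b, ‖g ξ‖ₑ ^ 2 := by
  have h := local_bound ((shell a b : Set (V n)).indicator g) (hg.shell a b) univ
    MeasurableSet.univ (fun ξ hξ => absurd (mem_univ ξ) hξ) 1 (fun ξ => by
      rw [Measure.restrict_univ, lintegral_gw_sub])
  refine h.trans (le_of_eq ?_)
  rw [one_mul, ← lintegral_indicator (measurableSet_shell a b)]
  refine lintegral_congr fun ξ => ?_
  by_cases hξ : ξ ∈ (shell a b : Set (V n))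
  · simp [hξ]
  · simp [hξ]

/-- the squares of the increments at the dyadic scale `j` in the window `[k, k + 1]` -/
noncomputable def Q (g : V n → ℂ) (k : ℝ) (j : ℕ) (x : V n) : ℝ≥0∞ :=
  ∑ i ∈ Finset.range (2 ^ j), ‖D g (k + i / 2 ^ j) (k + (i + 1) / 2 ^ j) x‖ₑ ^ 2

/-- the majorant of the window -/
noncomputable def G (g : V n → ℂ) (k : ℝ) (x : V n) : ℝ≥0∞ :=
  16 * ∑' j : ℕ, ENNReal.ofReal ((16 / 9 : ℝ) ^ j) * Q g k j x

/-- continuity in the radius -/
lemma tendsto_S {g : V n → ℂ} (hg : LocInt g) {R : ℝ} (hR : 0 < R) {r : ℕ → ℝ}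
    (hr : ∀ m, r m ≤ R) (hlim : Tendsto r atTop (𝓝 R)) (x : V n) :
    Tendsto (fun m => S g (r m) x) atTop (𝓝 (S g R x)) := by
  unfold S IF
  refine tendsto_integral_of_dominated_convergence
    (fun ξ => ‖{ξ : V n | ‖ξ‖ ≤ R}.indicator g ξ‖) ?_ (hg R).norm ?_ ?_
  · intro m
    exact (integrable_mul_ex (hg (r m)) x).1
  · intro m
    refine Eventually.of_forall fun ξ => ?_
    rw [norm_mul, norm_ex, mul_one]
    by_cases h : ‖ξ‖ ≤ r m
    · rw [indicator_of_mem (show ξ ∈ {ξ : V n | ‖ξ‖ ≤ r m} from h),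
        indicator_of_mem (show ξ ∈ {ξ : V n | ‖ξ‖ ≤ R} from h.trans (hr m))]
    · rw [indicator_of_notMem (show ξ ∉ {ξ : V n | ‖ξ‖ ≤ r m} from h), norm_zero]
      exact norm_nonneg _
  · have h0 : ∀ᵐ ξ : V n, ξ ∉ Metric.sphere (0 : V n) R := by
      rw [← measure_eq_zero_iff_ae_notMem]
      exact Measure.addHaar_sphere_of_ne_zero _ _ hR.ne'
    filter_upwards [h0] with ξ hξ
    have hne : ‖ξ‖ ≠ R := by simpa using hξ
    refine Tendsto.congr' ?_ tendsto_const_nhds
    rcases lt_or_gt_of_ne hne with h | h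
    · filter_upwards [hlim.eventually (lt_mem_nhds h)] with m hm
      rw [indicator_of_mem (show ξ ∈ {ξ : V n | ‖ξ‖ ≤ R} from h.le),
        indicator_of_mem (show ξ ∈ {ξ : V n | ‖ξ‖ ≤ r m} from hm.le)]
    · refine Eventually.of_forall fun m => ?_
      have h3 : {ξ : V n | ‖ξ‖ ≤ r m}.indicator g ξ = 0 :=
        indicator_of_notMem (show ξ ∉ {ξ : V n | ‖ξ‖ ≤ r m} from
          not_le.2 (lt_of_le_of_lt (hr m) h)) g
      have h4 : {ξ : V n | ‖ξ‖ ≤ R}.indicator g ξ = 0 :=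
        indicator_of_notMem (show ξ ∉ {ξ : V n | ‖ξ‖ ≤ R} from not_le.2 h) g
      simp only [h3, h4]

lemma Q_le {g : V n → ℂ} {k : ℝ} {x : V n} (T : ℝ≥0∞)
    (hT : T = ∑' j : ℕ, ENNReal.ofReal ((16 / 9 : ℝ) ^ j) * Q g k j x) (hfin : T ≠ ⊤) (j i : ℕ)
    (hi : i < 2 ^ j) :
    ‖D g (k + i / 2 ^ j) (k + (i + 1) / 2 ^ j) x‖ ≤ (3 / 4 : ℝ) ^ j * Real.sqrt T.toReal := by
  have h1 : ‖D g (k + i / 2 ^ j) (k + (i + 1) / 2 ^ j) x‖ₑ ^ 2 ≤ Q g k j x := by
    unfold Q
    exact Finset.single_le_sum (f := fun i : ℕ =>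
      ‖D g (k + i / 2 ^ j) (k + (i + 1) / 2 ^ j) x‖ₑ ^ 2) (fun _ _ => bot_le)
      (Finset.mem_range.2 hi)
  have h2 : ENNReal.ofReal ((16 / 9 : ℝ) ^ j) * Q g k j x ≤ T := by
    rw [hT]
    exact ENNReal.le_tsum j
  have h3 : ENNReal.ofReal ((16 / 9 : ℝ) ^ j) *
      ‖D g (k + i / 2 ^ j) (k + (i + 1) / 2 ^ j) x‖ₑ ^ 2 ≤ T :=
    (mul_le_mul_right h1 _).trans h2
  have h4 : (16 / 9 : ℝ) ^ j * ‖D g (k + i / 2 ^ j) (k + (i + 1) / 2 ^ j) x‖ ^ 2 ≤ T.toReal := by
    have h5 := ENNReal.toReal_mono hfin h3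
    rw [ENNReal.toReal_mul, ENNReal.toReal_ofReal (by positivity), ENNReal.toReal_pow,
      toReal_enorm] at h5
    exact h5
  have h6 : ‖D g (k + i / 2 ^ j) (k + (i + 1) / 2 ^ j) x‖ ^ 2 ≤
      ((3 / 4 : ℝ) ^ j * Real.sqrt T.toReal) ^ 2 := by
    rw [mul_pow, Real.sq_sqrt ENNReal.toReal_nonneg, ← pow_mul, mul_comm j 2, pow_mul]
    have h7 : ((3 / 4 : ℝ) ^ 2) ^ j * (16 / 9 : ℝ) ^ j = 1 := by
      rw [← mul_pow]; norm_num
    have h8 : (0 : ℝ) < ((3 / 4 : ℝ) ^ 2) ^ j := by positivity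
    calc ‖D g (k + i / 2 ^ j) (k + (i + 1) / 2 ^ j) x‖ ^ 2
        = ((3 / 4 : ℝ) ^ 2) ^ j * ((16 / 9 : ℝ) ^ j *
          ‖D g (k + i / 2 ^ j) (k + (i + 1) / 2 ^ j) x‖ ^ 2) := by
          rw [← mul_assoc, h7, one_mul]
      _ ≤ ((3 / 4 : ℝ) ^ 2) ^ j * T.toReal := by gcongr
  exact abs_le_of_sq_le_sq' h6 (by positivity) |>.2

/-- **The windows.** -/
theorem window_bound {g : V n → ℂ} (hg : LocInt g) {k R : ℝ} (hk : 0 ≤ k) (h1 : k ≤ R)
    (h2 : R ≤ k + 1) (x : V n) : ‖S g R x - S g k x‖ₑ ^ 2 ≤ G g k x := by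
  set T : ℝ≥0∞ := ∑' j : ℕ, ENNReal.ofReal ((16 / 9 : ℝ) ^ j) * Q g k j x with hT
  have hG : G g k x = 16 * T := rfl
  rw [hG]
  rcases eq_or_ne T ⊤ with htop | hfin
  · rw [htop]; simp
  rcases eq_or_lt_of_le (hk.trans h1) with hR0 | hR0
  · have h3 : R = k := by linarith
    rw [h3, sub_self]
    simp
  set s : ℝ := Real.sqrt T.toReal with hs
  have hs0 : 0 ≤ s := Real.sqrt_nonneg _
  set q : ℕ → ℕ := fun m => ⌊2 ^ m * (R - k)⌋₊ with hq
  set r : ℕ → ℝ := fun m => k + q m / 2 ^ m with hr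
  have hRk : 0 ≤ R - k := by linarith
  have hq1 : ∀ m, (q m : ℝ) ≤ 2 ^ m * (R - k) := fun m => Nat.floor_le (by positivity)
  have hq2 : ∀ m, 2 ^ m * (R - k) < q m + 1 := fun m => Nat.lt_floor_add_one _
  have hrR : ∀ m, r m ≤ R := by
    intro m
    have h3 : (q m : ℝ) / 2 ^ m ≤ R - k := by
      rw [div_le_iff₀ (by positivity)]
      linarith [hq1 m]
    simp only [hr]
    linarith
  have hrR' : ∀ m, R - (1 / 2 : ℝ) ^ m ≤ r m := by
    intro m
    have h3 : R - k ≤ (q m + 1 : ℝ) / 2 ^ m := by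
      rw [le_div_iff₀ (by positivity)]
      linarith [hq2 m]
    have h4 : (q m + 1 : ℝ) / 2 ^ m = q m / 2 ^ m + (1 / 2 : ℝ) ^ m := by
      rw [add_div, div_pow, one_pow]
    simp only [hr]
    linarith
  have hrlim : Tendsto r atTop (𝓝 R) := by
    refine tendsto_of_tendsto_of_tendsto_of_le_of_le (g := fun m => R - (1 / 2 : ℝ) ^ m)
      ?_ tendsto_const_nhds hrR' hrR
    have h3 := (tendsto_pow_atTop_nhds_zero_of_lt_one (r := (1 / 2 : ℝ)) (by norm_num)
      (by norm_num)).const_sub R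
    simpa using h3
  have hstep : ∀ m, q (m + 1) = 2 * q m ∨ q (m + 1) = 2 * q m + 1 := by
    intro m
    have h3 : (q (m + 1) : ℝ) < 2 * q m + 2 := by
      have := hq1 (m + 1)
      have h4 := hq2 m
      rw [pow_succ] at this
      nlinarith
    have h4 : (2 * q m : ℝ) < q (m + 1) + 1 := by
      have := hq2 (m + 1)
      have h4 := hq1 m
      rw [pow_succ] at this
      nlinarith
    have h5 : q (m + 1) < 2 * q m + 2 := by exact_mod_cast h3
    have h6 : 2 * q m < q (m + 1) + 1 := by exact_mod_cast h4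
    omega
  have hqle : ∀ m, q m ≤ 2 ^ m := by
    intro m
    have h3 : (q m : ℝ) ≤ 2 ^ m := by
      refine (hq1 m).trans ?_
      have : R - k ≤ 1 := by linarith
      nlinarith [pow_pos (show (0 : ℝ) < 2 by norm_num) m]
    exact_mod_cast h3
  have hsum : ∀ m, ‖S g (r m) x - S g k x‖ ≤
      (∑ j ∈ Finset.range (m + 1), (3 / 4 : ℝ) ^ j) * s := by
    intro m
    induction m with
    | zero =>
        rw [Finset.sum_range_one, pow_zero, one_mul]
        have h3 : q 0 ≤ 1 := by simpa using hqle 0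
        rcases Nat.le_one_iff_eq_zero_or_eq_one.1 h3 with h | h
        · have h4 : r 0 = k := by simp [hr, h]
          rw [h4, sub_self, norm_zero]
          exact hs0
        · have h4 : r 0 = k + 1 := by simp [hr, h]
          rw [h4, S_sub hg (show k ≤ k + 1 by linarith) x, add_sub_cancel_left]
          have h5 := Q_le (g := g) (k := k) (x := x) T hT hfin 0 0 (by norm_num)
          simpa using h5
    | succ m ih =>
        rw [Finset.sum_range_succ, add_mul]
        rcases hstep m with h | h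
        · have h4 : r (m + 1) = r m := by
            simp only [hr, h]
            rw [pow_succ]
            push_cast
            field_simp
          rw [h4]
          have h5 : 0 ≤ (3 / 4 : ℝ) ^ (m + 1) * s := by positivity
          linarith
        · have h4 : r m = k + (2 * q m : ℕ) / 2 ^ (m + 1) := by
            simp only [hr]
            rw [pow_succ]
            push_cast
            field_simp
          have h5 : r (m + 1) = k + ((2 * q m : ℕ) + 1) / 2 ^ (m + 1) := by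
            simp only [hr, h]
            push_cast
            rfl
          have h6 : r m ≤ r (m + 1) := by
            rw [h4, h5]
            have : ((2 * q m : ℕ) : ℝ) / 2 ^ (m + 1) ≤ ((2 * q m : ℕ) + 1) / 2 ^ (m + 1) := by
              gcongr
              linarith
            linarith
          have h7 : 2 * q m < 2 ^ (m + 1) := by
            have := hqle (m + 1)
            omega
          have h8 := Q_le (g := g) (k := k) (x := x) T hT hfin (m + 1) (2 * q m) h7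
          rw [← h4, ← h5] at h8
          rw [S_sub hg h6 x]
          calc ‖S g (r m) x + D g (r m) (r (m + 1)) x - S g k x‖
              = ‖(S g (r m) x - S g k x) + D g (r m) (r (m + 1)) x‖ := by congr 1; ring
            _ ≤ ‖S g (r m) x - S g k x‖ + ‖D g (r m) (r (m + 1)) x‖ := norm_add_le _ _
            _ ≤ _ := add_le_add ih h8
  have hgeo : ∀ m, (∑ j ∈ Finset.range (m + 1), (3 / 4 : ℝ) ^ j) ≤ 4 := by
    intro m
    rw [geom_sum_eq (by norm_num)]
    have : (0 : ℝ) < (3 / 4 : ℝ) ^ (m + 1) := by positivity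
    have h3 : ((3 / 4 : ℝ) ^ (m + 1) - 1) / (3 / 4 - 1) = 4 - 4 * (3 / 4 : ℝ) ^ (m + 1) := by
      ring
    rw [h3]
    linarith
  have hle : ‖S g R x - S g k x‖ ≤ 4 * s := by
    have h3 := ((tendsto_S hg hR0 hrR hrlim x).sub_const (S g k x)).norm
    refine le_of_tendsto h3 (Eventually.of_forall fun m => ?_)
    exact (hsum m).trans (mul_le_mul_of_nonneg_right (hgeo m) hs0)
  have hsq : ‖S g R x - S g k x‖ ^ 2 ≤ 16 * T.toReal := by
    have h3 : ‖S g R x - S g k x‖ ^ 2 ≤ (4 * s) ^ 2 := pow_le_pow_left₀ (norm_nonneg _) hle 2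
    rw [mul_pow, hs, Real.sq_sqrt ENNReal.toReal_nonneg] at h3
    linarith
  rw [← ofReal_norm, ← ENNReal.ofReal_pow (norm_nonneg _)]
  refine (ENNReal.ofReal_le_ofReal hsq).trans ?_
  rw [ENNReal.ofReal_mul (by norm_num), ENNReal.ofReal_toReal hfin]
  norm_num

lemma continuous_IF {g : V n → ℂ} (hg : Integrable g) : Continuous (IF g) := by
  unfold IF
  refine continuous_of_dominated (bound := fun ξ => ‖g ξ‖) ?_ ?_ hg.norm ?_
  · intro x
    exact (integrable_mul_ex hg x).1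
  · intro x
    exact Eventually.of_forall fun ξ => by rw [norm_mul, norm_ex, mul_one]
  · refine Eventually.of_forall fun ξ => ?_
    exact continuous_const.mul
      (continuous_ex.comp (by fun_prop : Continuous fun x : V n => (x, ξ)))

lemma continuous_D {g : V n → ℂ} (hg : LocInt g) (a b : ℝ) : Continuous (D g a b) :=
  continuous_IF (hg.shell a b)

lemma continuous_S {g : V n → ℂ} (hg : LocInt g) (R : ℝ) : Continuous (S g R) :=
  continuous_IF (hg R)

lemma measurable_D {g : V n → ℂ} (hg : LocInt g) (a b : ℝ) :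
    Measurable fun x => ‖D g a b x‖ₑ :=
  (continuous_D hg a b).measurable.enorm

lemma measurable_Q {g : V n → ℂ} (hg : LocInt g) (k : ℝ) (j : ℕ) : Measurable (Q g k j) := by
  unfold Q
  exact Finset.measurable_fun_sum _ fun i _ => (measurable_D hg _ _).pow_const 2

lemma measurable_G {g : V n → ℂ} (hg : LocInt g) (k : ℝ) : Measurable (G g k) := by
  unfold G
  exact (Measurable.tsum fun j => (measurable_Q hg k j).const_mul _).const_mul _

lemma sum_shells (f : V n → ℝ≥0∞) (k : ℝ) (N : ℕ) (hN : 0 < N) :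
    ∑ i ∈ Finset.range N, ∫⁻ ξ in shell (k + (i : ℝ) / N) (k + ((i : ℝ) + 1) / N), f ξ ≤
      ∫⁻ ξ in shell k (k + 1), f ξ := by
  have hN' : (0 : ℝ) < N := by exact_mod_cast hN
  rw [← lintegral_biUnion_finset (s := Finset.range N)
    (t := fun i : ℕ => (shell (k + (i : ℝ) / N) (k + ((i : ℝ) + 1) / N) : Set (V n)))]
  · refine lintegral_mono_set ?_
    intro ξ hξ
    simp only [mem_iUnion, Finset.mem_range] at hξ
    obtain ⟨i, hi, h1, h2⟩ := hξ
    have h3 : ((i : ℝ) + 1) / N ≤ 1 := by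
      rw [div_le_one hN']
      exact_mod_cast hi
    have h4 : 0 ≤ (i : ℝ) / N := by positivity
    exact ⟨by linarith, by linarith⟩
  · intro i _ j _ hij
    simp only [Function.onFun]
    rw [Set.disjoint_left]
    intro ξ hi hj
    obtain ⟨h1, h2⟩ := hi
    obtain ⟨h3, h4⟩ := hj
    have h5 : (i : ℝ) / N < ((j : ℝ) + 1) / N := by linarith
    have h6 : (j : ℝ) / N < ((i : ℝ) + 1) / N := by linarith
    rw [div_lt_div_iff_of_pos_right hN'] at h5 h6
    have h7 : i < j + 1 := by exact_mod_cast h5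
    have h8 : j < i + 1 := by exact_mod_cast h6
    exact hij (by omega)
  · intro i _
    exact measurableSet_shell _ _

/-- **The mass of a window.** -/
theorem lintegral_G (hn : 1 ≤ n) {g : V n → ℂ} (hg : LocInt g) {k : ℝ} (hk : 0 ≤ k) :
    ∫⁻ x, gw x * G g k x ≤
      ENNReal.ofReal (288 * n * Real.sqrt n) * ∫⁻ ξ in shell k (k + 1), ‖g ξ‖ₑ ^ 2 := by
  set M := ∫⁻ ξ in shell k (k + 1), ‖g ξ‖ₑ ^ 2 with hM
  set c : ℝ := 2 * n * Real.sqrt n with hc
  have hc0 : 0 ≤ c := by positivity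
  have hQ : ∀ j : ℕ, ∫⁻ x, gw x * Q g k j x ≤ ENNReal.ofReal (c * (1 / 2 : ℝ) ^ j) * M := by
    intro j
    unfold Q
    simp_rw [Finset.mul_sum]
    rw [lintegral_finsetSum' (f := fun (i : ℕ) x => gw x *
      ‖D g (k + i / 2 ^ j) (k + (i + 1) / 2 ^ j) x‖ₑ ^ 2) _ fun i _ =>
      (measurable_gw.mul ((measurable_D hg _ _).pow_const 2)).aemeasurable]
    calc ∑ i ∈ Finset.range (2 ^ j), ∫⁻ x, gw x *
          ‖D g (k + i / 2 ^ j) (k + (i + 1) / 2 ^ j) x‖ₑ ^ 2
        ≤ ∑ i ∈ Finset.range (2 ^ j), ENNReal.ofReal (c * (1 / 2 : ℝ) ^ j) *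
          ∫⁻ ξ in shell (k + (i : ℝ) / (2 ^ j : ℕ)) (k + ((i : ℝ) + 1) / (2 ^ j : ℕ)),
            ‖g ξ‖ₑ ^ 2 := by
          refine Finset.sum_le_sum fun i _ => ?_
          have h1 : 0 ≤ k + (i : ℝ) / 2 ^ j := by positivity
          have h2 : k + (i : ℝ) / 2 ^ j ≤ k + ((i : ℝ) + 1) / 2 ^ j := by
            have : (i : ℝ) / 2 ^ j ≤ ((i : ℝ) + 1) / 2 ^ j := by
              gcongr
              linarith
            linarith
          have h3 := D_local hn hg h1 h2
          have h4 : k + ((i : ℝ) + 1) / 2 ^ j - (k + (i : ℝ) / 2 ^ j) = (1 / 2 : ℝ) ^ j := by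
            rw [div_pow, one_pow]
            ring
          rw [h4] at h3
          push_cast
          exact h3
      _ = ENNReal.ofReal (c * (1 / 2 : ℝ) ^ j) * ∑ i ∈ Finset.range (2 ^ j),
          ∫⁻ ξ in shell (k + (i : ℝ) / (2 ^ j : ℕ)) (k + ((i : ℝ) + 1) / (2 ^ j : ℕ)),
            ‖g ξ‖ₑ ^ 2 := by rw [Finset.mul_sum]
      _ ≤ ENNReal.ofReal (c * (1 / 2 : ℝ) ^ j) * M := by
          refine mul_le_mul_right ?_ _
          exact sum_shells (fun ξ => ‖g ξ‖ₑ ^ 2) k (2 ^ j) (by positivity)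
  have h1 : ∫⁻ x, gw x * G g k x =
      16 * ∑' j : ℕ, ENNReal.ofReal ((16 / 9 : ℝ) ^ j) * ∫⁻ x, gw x * Q g k j x := by
    unfold G
    have h2 : ∀ x, gw x * (16 * ∑' j : ℕ, ENNReal.ofReal ((16 / 9 : ℝ) ^ j) * Q g k j x) =
        16 * ∑' j : ℕ, ENNReal.ofReal ((16 / 9 : ℝ) ^ j) * (gw x * Q g k j x) := by
      intro x
      rw [← mul_assoc, mul_comm (gw x), mul_assoc, ← ENNReal.tsum_mul_left]
      congr 2
      ext j
      ring
    simp_rw [h2]
    rw [lintegral_const_mul' _ _ (by norm_num), lintegral_tsum]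
    · congr 2
      ext j
      rw [lintegral_const_mul' _ _ ENNReal.ofReal_ne_top]
    · intro j
      exact ((measurable_gw.mul (measurable_Q hg k j)).const_mul _).aemeasurable
  rw [h1]
  calc 16 * ∑' j : ℕ, ENNReal.ofReal ((16 / 9 : ℝ) ^ j) * ∫⁻ x, gw x * Q g k j x
      ≤ 16 * ∑' j : ℕ, ENNReal.ofReal ((16 / 9 : ℝ) ^ j) *
          (ENNReal.ofReal (c * (1 / 2 : ℝ) ^ j) * M) := by
        refine mul_le_mul_right (ENNReal.tsum_le_tsum fun j => mul_le_mul_right (hQ j) _) _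
    _ = 16 * ((∑' j : ℕ, ENNReal.ofReal (c * (8 / 9 : ℝ) ^ j)) * M) := by
        rw [← ENNReal.tsum_mul_right]
        congr 2
        ext j
        rw [← mul_assoc, ← ENNReal.ofReal_mul (by positivity)]
        congr 2
        rw [show (8 / 9 : ℝ) = (16 / 9) * (1 / 2) by norm_num, mul_pow]
        ring
    _ = ENNReal.ofReal (288 * n * Real.sqrt n) * M := by
        rw [← ENNReal.ofReal_tsum_of_nonneg (fun j => by positivity)
          ((summable_geometric_of_lt_one (by norm_num) (by norm_num)).mul_left c), tsum_mul_left,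
          tsum_geometric_of_lt_one (by norm_num) (by norm_num), ← mul_assoc]
        congr 1
        rw [show (16 : ℝ≥0∞) = ENNReal.ofReal 16 by norm_num, ← ENNReal.ofReal_mul (by norm_num)]
        congr 1
        rw [hc]
        ring

end Pool.Agent.Q302.BS
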