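import Mathlib

/-!
# Convergence of random series with bounded independent mean zero multipliers
-/

set_option autoImplicit false

open MeasureTheory ProbabilityTheory Set Filter Topology
open scoped ENNReal NNReal Real

namespace Pool.Agent.Q302.BS

variable {Ω : Type} [MeasurableSpace Ω] {P : Measure Ω} [IsProbabilityMeasure P]

lemma kol_memLp {X : Ω → ℝ} (hm : Measurable X) (hb : ∀ ω, |X ω| ≤ 1) :
    MemLp X 2 P :=
  MemLp.of_bound hm.aestronglyMeasurable 1 (Eventually.of_forall fun ω => by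
    rw [Real.norm_eq_abs]; exact hb ω)

lemma kol_var {X : Ω → ℝ} (hm : Measurable X) (hb : ∀ ω, |X ω| ≤ 1)
    (h0 : ∫ ω, X ω ∂P = 0) : Var[X; P] ≤ 1 := by
  rw [variance_of_integral_eq_zero hm.aemeasurable h0]
  have h1 : ∀ ω, X ω ^ 2 ≤ 1 := fun ω => by
    have := hb ω
    rw [← sq_abs]
    exact pow_le_one₀ (abs_nonneg _) this
  calc ∫ ω, X ω ^ 2 ∂P ≤ ∫ _ω, (1 : ℝ) ∂P := by
        refine integral_mono_of_nonneg (Eventually.of_forall fun ω => sq_nonneg _)
          (integrable_const _) (Eventually.of_forall h1)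
    _ = 1 := by simp

/-- Kolmogorov: `∑ a_k ε_k` converges almost surely when `∑ a_k² < ∞` -/
theorem kolmogorov {ε : ℕ → Ω → ℝ} (hm : ∀ k, Measurable (ε k)) (hi : iIndepFun ε P)
    (hb : ∀ k ω, |ε k ω| ≤ 1) (h0 : ∀ k, ∫ ω, ε k ω ∂P = 0) (a : ℕ → ℝ)
    (ha : Summable fun k => a k ^ 2) :
    ∀ᵐ ω ∂P, ∃ c, Tendsto (fun N => ∑ k ∈ Finset.range N, a k * ε k ω) atTop (𝓝 c) := by
  set ℱ := Filtration.natural ε (fun k => (hm k).stronglyMeasurable) with hℱ
  set M : ℕ → Ω → ℝ := fun N ω => ∑ k ∈ Finset.range (N + 1), a k * ε k ω with hM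
  have hL : ∀ k, MemLp (fun ω => a k * ε k ω) 2 P := fun k =>
    (kol_memLp (hm k) (hb k)).const_mul (a k)
  have hML : ∀ N, MemLp (M N) 2 P := fun N => memLp_finsetSum _ fun k _ => hL k
  have hint : ∀ N, Integrable (M N) P := fun N => (hML N).integrable (by norm_num)
  have hadp : StronglyAdapted ℱ M := by
    intro N
    refine Finset.stronglyMeasurable_fun_sum _ fun k hk => ?_
    have hk' : k ≤ N := by
      rw [Finset.mem_range] at hk; omega
    have h1 : StronglyMeasurable[ℱ k] (ε k) :=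
      Filtration.stronglyAdapted_natural (fun k => (hm k).stronglyMeasurable) k
    exact (h1.mono (ℱ.mono hk')).const_mul _
  have hmart : Martingale M ℱ P := by
    refine martingale_nat hadp hint fun N => ?_
    have h1 : M (N + 1) = M N + fun ω => a (N + 1) * ε (N + 1) ω := by
      ext ω
      simp only [hM, Pi.add_apply]
      rw [Finset.sum_range_succ _ (N + 1)]
    rw [h1]
    have hiε : Integrable (ε (N + 1)) P := (kol_memLp (hm _) (hb _)).integrable (by norm_num)
    have h2 := condExp_add (hint N) (hiε.const_mul (a (N + 1))) (ℱ N) (μ := P)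
    have h3 : P[M N | ℱ N] = M N :=
      condExp_of_stronglyMeasurable (ℱ.le N) (hadp N) (hint N)
    have h4 := condExp_smul (μ := P) (a (N + 1)) (ε (N + 1)) (ℱ N)
    have h5 := iIndepFun.condExp_natural_ae_eq_of_lt (fun k => (hm k).stronglyMeasurable) hi
      (Nat.lt_succ_self N)
    filter_upwards [h2, h4, h5] with ω e2 e4 e5
    rw [e2, Pi.add_apply, h3]
    have e6 : (P[fun ω => a (N + 1) * ε (N + 1) ω | ℱ N]) ω = 0 := by
      have : (fun ω => a (N + 1) * ε (N + 1) ω) = a (N + 1) • ε (N + 1) := rfl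
      rw [this, e4, Pi.smul_apply, e5, h0, smul_zero]
    rw [e6, add_zero]
  -- the bound in `L²`
  have hvar : ∀ N, ∫ ω, M N ω ^ 2 ∂P ≤ ∑' k, a k ^ 2 := by
    intro N
    have hmean : ∫ ω, M N ω ∂P = 0 := by
      simp only [hM]
      rw [integral_finsetSum _ fun k _ => (hL k).integrable (by norm_num)]
      refine Finset.sum_eq_zero fun k _ => ?_
      rw [integral_const_mul, h0, mul_zero]
    rw [← variance_of_integral_eq_zero (hML N).aestronglyMeasurable.aemeasurable hmean]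
    have h1 : M N = ∑ k ∈ Finset.range (N + 1), fun ω => a k * ε k ω := by
      ext ω
      simp [hM]
    rw [h1, IndepFun.variance_sum (fun k _ => hL k)]
    · refine (Finset.sum_le_sum fun k _ => ?_).trans
        (ha.sum_le_tsum (Finset.range (N + 1)) fun k _ => sq_nonneg _)
      rw [variance_const_mul]
      have := kol_var (P := P) (hm k) (hb k) (h0 k)
      nlinarith [sq_nonneg (a k)]
    · intro k _ l _ hkl
      exact (hi.indepFun hkl).comp (measurable_const_mul (a k)) (measurable_const_mul (a l))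
  have hbdd : ∀ N, eLpNorm (M N) 1 P ≤ ((Real.sqrt (∑' k, a k ^ 2)).toNNReal : ℝ≥0∞) := by
    intro N
    refine (eLpNorm_le_eLpNorm_of_exponent_le (show (1 : ℝ≥0∞) ≤ 2 by norm_num)
      (hML N).aestronglyMeasurable).trans ?_
    have h2 : eLpNorm (M N) 2 P = ENNReal.ofReal (Real.sqrt (∫ ω, M N ω ^ 2 ∂P)) := by
      rw [(hML N).eLpNorm_eq_integral_rpow_norm (by norm_num) (by norm_num)]
      simp only [ENNReal.toReal_ofNat, Real.rpow_ofNat, Real.norm_eq_abs, sq_abs]
      rw [Real.sqrt_eq_rpow]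
      norm_num
    rw [h2]
    exact ENNReal.ofReal_le_ofReal (Real.sqrt_le_sqrt (hvar N))
  filter_upwards [hmart.submartingale.exists_ae_tendsto_of_bdd hbdd] with ω ⟨c, hc⟩
  exact ⟨c, (tendsto_add_atTop_iff_nat 1).1 hc⟩

/-- the same for complex coefficients -/
theorem kolmogorov_complex {ε : ℕ → Ω → ℝ} (hm : ∀ k, Measurable (ε k)) (hi : iIndepFun ε P)
    (hb : ∀ k ω, |ε k ω| ≤ 1) (h0 : ∀ k, ∫ ω, ε k ω ∂P = 0) (a : ℕ → ℂ)
    (ha : Summable fun k => ‖a k‖ ^ 2) :
    ∀ᵐ ω ∂P, ∃ c : ℂ, Tendsto (fun N => ∑ k ∈ Finset.range N, (ε k ω : ℂ) * a k) atTop (𝓝 c) := by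
  have hre : Summable fun k => (a k).re ^ 2 := by
    refine ha.of_nonneg_of_le (fun k => sq_nonneg _) fun k => ?_
    rw [← sq_abs]
    exact pow_le_pow_left₀ (abs_nonneg _) (Complex.abs_re_le_norm _) 2
  have him : Summable fun k => (a k).im ^ 2 := by
    refine ha.of_nonneg_of_le (fun k => sq_nonneg _) fun k => ?_
    rw [← sq_abs]
    exact pow_le_pow_left₀ (abs_nonneg _) (Complex.abs_im_le_norm _) 2
  filter_upwards [kolmogorov hm hi hb h0 _ hre, kolmogorov hm hi hb h0 _ him] with ω ⟨c, hc⟩ ⟨d, hd⟩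
  refine ⟨(c : ℂ) + d * Complex.I, ?_⟩
  have h1 : Tendsto (fun N => ((∑ k ∈ Finset.range N, (a k).re * ε k ω : ℝ) : ℂ) +
      ((∑ k ∈ Finset.range N, (a k).im * ε k ω : ℝ) : ℂ) * Complex.I) atTop
      (𝓝 ((c : ℂ) + d * Complex.I)) :=
    ((Complex.continuous_ofReal.tendsto c).comp hc).add
      (((Complex.continuous_ofReal.tendsto d).comp hd).mul_const _)
  refine h1.congr fun N => ?_
  push_cast
  rw [Finset.sum_mul, ← Finset.sum_add_distrib]
  refine Finset.sum_congr rfl fun k _ => ?_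
  conv_rhs => rw [← Complex.re_add_im (a k)]
  ring

end Pool.Agent.Q302.BS
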