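import Pool.Agent.Q302.BS.Chain

/-!
# Passing from a relatively dense set of radii to all radii
-/

set_option autoImplicit false

open MeasureTheory Set Filter Topology
open scoped ENNReal NNReal Real RealInnerProductSpace ComplexConjugate

namespace Pool.Agent.Q302.BS

variable {n : ℕ}

/-- the sum of the majorants of all windows -/
noncomputable def W (g : V n → ℂ) (x : V n) : ℝ≥0∞ := ∑' k : ℕ, G g k x

lemma measurable_W {g : V n → ℂ} (hg : LocInt g) : Measurable (W g) :=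
  Measurable.tsum fun k => measurable_G hg k

lemma enorm_sq_le_iff {z : ℂ} {T : ℝ≥0∞} (hT : T ≠ ⊤) (c : ℝ) :
    ‖z‖ ≤ c * Real.sqrt T.toReal → ‖z‖ₑ ^ 2 ≤ ENNReal.ofReal (c ^ 2) * T := by
  intro h
  have h1 : ‖z‖ ^ 2 ≤ c ^ 2 * T.toReal := by
    have h2 := pow_le_pow_left₀ (norm_nonneg _) h 2
    rwa [mul_pow, Real.sq_sqrt ENNReal.toReal_nonneg] at h2
  rw [← ofReal_norm, ← ENNReal.ofReal_pow (norm_nonneg _)]
  refine (ENNReal.ofReal_le_ofReal h1).trans ?_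
  rw [ENNReal.ofReal_mul (by positivity), ENNReal.ofReal_toReal hT]

lemma norm_le_sqrt {z : ℂ} {T : ℝ≥0∞} (hT : T ≠ ⊤) (h : ‖z‖ₑ ^ 2 ≤ T) :
    ‖z‖ ≤ Real.sqrt T.toReal := by
  refine Real.le_sqrt_of_sq_le ?_
  have h1 := ENNReal.toReal_mono hT h
  rwa [ENNReal.toReal_pow, toReal_enorm] at h1

theorem moves {g : V n → ℂ} (hg : LocInt g) {R r : ℝ} (hR : 0 ≤ R) (hr : 0 ≤ r) (m : ℕ)
    (hm : |R - r| ≤ m) (x : V n) :
    ‖S g R x - S g r x‖ₑ ^ 2 ≤ ENNReal.ofReal ((m + 2 : ℝ) ^ 2) * W g x := by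
  rcases eq_or_ne (W g x) ⊤ with h | hfin
  · rw [h, ENNReal.mul_top]
    · exact le_top
    · rw [Ne, ENNReal.ofReal_eq_zero, not_le]
      positivity
  set s := Real.sqrt (W g x).toReal with hs
  have hs0 : 0 ≤ s := Real.sqrt_nonneg _
  have hGW : ∀ k : ℕ, G g k x ≤ W g x := fun k => ENNReal.le_tsum (f := fun k : ℕ => G g k x) k
  have hfl : ∀ {R : ℝ}, 0 ≤ R → ‖S g R x - S g (⌊R⌋₊ : ℝ) x‖ ≤ s := by
    intro R hR
    exact norm_le_sqrt hfin ((window_bound hg (Nat.cast_nonneg _) (Nat.floor_le hR)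
      (Nat.lt_floor_add_one R).le x).trans (hGW _))
  have hone : ∀ k : ℕ, ‖S g ((k + 1 : ℕ) : ℝ) x - S g (k : ℝ) x‖ ≤ s := by
    intro k
    refine norm_le_sqrt hfin ((window_bound hg (Nat.cast_nonneg k) ?_ ?_ x).trans (hGW _))
    · push_cast; linarith
    · push_cast; linarith
  have hmany : ∀ i k : ℕ, ‖S g ((k + i : ℕ) : ℝ) x - S g (k : ℝ) x‖ ≤ i * s := by
    intro i k
    induction i with
    | zero => simp
    | succ i ih =>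
        have h1 := hone (k + i)
        calc ‖S g ((k + (i + 1) : ℕ) : ℝ) x - S g (k : ℝ) x‖
            = ‖(S g ((k + i + 1 : ℕ) : ℝ) x - S g ((k + i : ℕ) : ℝ) x) +
              (S g ((k + i : ℕ) : ℝ) x - S g (k : ℝ) x)‖ := by rw [sub_add_sub_cancel]; rfl
          _ ≤ _ + _ := norm_add_le _ _
          _ ≤ s + i * s := add_le_add h1 ih
          _ = ((i + 1 : ℕ) : ℝ) * s := by push_cast; ring
  have hkl : ∀ k l : ℕ, k ≤ l → l ≤ k + m → ‖S g (l : ℝ) x - S g (k : ℝ) x‖ ≤ m * s := by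
    intro k l h1 h2
    obtain ⟨i, rfl⟩ := Nat.exists_eq_add_of_le h1
    refine (hmany i k).trans (mul_le_mul_of_nonneg_right ?_ hs0)
    exact_mod_cast (by omega : i ≤ m)
  have hfloor : ∀ {a b : ℝ}, 0 ≤ a → 0 ≤ b → b ≤ a + m → ⌊b⌋₊ ≤ ⌊a⌋₊ + m := by
    intro a b ha hb h
    rw [← Nat.floor_add_natCast ha]
    exact Nat.floor_le_floor h
  rw [abs_le] at hm
  have hmid : ‖S g (⌊R⌋₊ : ℝ) x - S g (⌊r⌋₊ : ℝ) x‖ ≤ m * s := by
    rcases le_total ⌊r⌋₊ ⌊R⌋₊ with h | h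
    · exact hkl _ _ h (hfloor hr hR (by linarith [hm.2]))
    · rw [norm_sub_rev]
      exact hkl _ _ h (hfloor hR hr (by linarith [hm.1]))
  refine enorm_sq_le_iff hfin (m + 2 : ℝ) ?_
  calc ‖S g R x - S g r x‖
      = ‖(S g R x - S g (⌊R⌋₊ : ℝ) x) + ((S g (⌊R⌋₊ : ℝ) x - S g (⌊r⌋₊ : ℝ) x) -
        (S g r x - S g (⌊r⌋₊ : ℝ) x))‖ := by congr 1; ring
    _ ≤ ‖S g R x - S g (⌊R⌋₊ : ℝ) x‖ + ‖(S g (⌊R⌋₊ : ℝ) x - S g (⌊r⌋₊ : ℝ) x) -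
        (S g r x - S g (⌊r⌋₊ : ℝ) x)‖ := norm_add_le _ _
    _ ≤ s + (m * s + s) := by
        refine add_le_add (hfl hR) ((norm_sub_le _ _).trans (add_le_add hmid (hfl hr)))
    _ = (m + 2) * s := by ring

lemma shells_iUnion : (⋃ k : ℕ, (shell (k : ℝ) (k + 1) : Set (V n))) ⊆ univ := subset_univ _

lemma tsum_shells (f : V n → ℝ≥0∞) :
    ∑' k : ℕ, ∫⁻ ξ in shell (k : ℝ) (k + 1), f ξ ≤ ∫⁻ ξ, f ξ := by
  rw [← lintegral_iUnion (fun k : ℕ => measurableSet_shell (k : ℝ) (k + 1))]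
  · exact setLIntegral_le_lintegral _ _
  · intro i j hij
    simp only [Function.onFun]
    rw [Set.disjoint_left]
    intro ξ hi hj
    obtain ⟨h1, h2⟩ := hi
    obtain ⟨h3, h4⟩ := hj
    have h7 : i < j + 1 := by exact_mod_cast (lt_of_lt_of_le h1 h4)
    have h8 : j < i + 1 := by exact_mod_cast (lt_of_lt_of_le h3 h2)
    exact hij (by omega)

theorem lintegral_W (hn : 1 ≤ n) {g : V n → ℂ} (hg : LocInt g) :
    ∫⁻ x, gw x * W g x ≤ ENNReal.ofReal (288 * n * Real.sqrt n) * ∫⁻ ξ, ‖g ξ‖ₑ ^ 2 := by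
  unfold W
  simp_rw [← ENNReal.tsum_mul_left]
  rw [lintegral_tsum (f := fun (k : ℕ) x => gw x * G g (k : ℝ) x)
    fun k : ℕ => (measurable_gw.mul (measurable_G hg (k : ℝ))).aemeasurable]
  calc ∑' k : ℕ, ∫⁻ x, gw x * G g k x
      ≤ ∑' k : ℕ, ENNReal.ofReal (288 * n * Real.sqrt n) *
          ∫⁻ ξ in shell (k : ℝ) (k + 1), ‖g ξ‖ₑ ^ 2 :=
        ENNReal.tsum_le_tsum fun k => lintegral_G hn hg (Nat.cast_nonneg k)
    _ = ENNReal.ofReal (288 * n * Real.sqrt n) *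
          ∑' k : ℕ, ∫⁻ ξ in shell (k : ℝ) (k + 1), ‖g ξ‖ₑ ^ 2 := ENNReal.tsum_mul_left
    _ ≤ _ := mul_le_mul_right (tsum_shells _) _

/-- local version of the bound of `W` -/
theorem lintegral_W_ball (hn : 1 ≤ n) {g : V n → ℂ} (hg : LocInt g) (ρ : ℝ) :
    ∫⁻ x in {x : V n | ‖x‖ ≤ ρ}, W g x ≤
      ENNReal.ofReal (Real.exp (π * ρ ^ 2) * (288 * n * Real.sqrt n)) * ∫⁻ ξ, ‖g ξ‖ₑ ^ 2 := by
  rw [ENNReal.ofReal_mul (Real.exp_pos _).le, mul_assoc]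
  calc ∫⁻ x in {x : V n | ‖x‖ ≤ ρ}, W g x
      ≤ ∫⁻ x in {x : V n | ‖x‖ ≤ ρ}, ENNReal.ofReal (Real.exp (π * ρ ^ 2)) * (gw x * W g x) := by
        refine setLIntegral_mono' (measurableSet_ball' ρ) fun x hx => ?_
        have hx' : ‖x‖ ≤ ρ := hx
        rw [← mul_assoc]
        refine le_mul_of_one_le_left bot_le ?_
        unfold gw
        rw [← ENNReal.ofReal_mul (Real.exp_pos _).le, ← Real.exp_add, ENNReal.one_le_ofReal]
        refine Real.one_le_exp ?_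
        have h1 : ‖x‖ ^ 2 ≤ ρ ^ 2 := pow_le_pow_left₀ (norm_nonneg _) hx' 2
        nlinarith [Real.pi_pos]
    _ ≤ ∫⁻ x, ENNReal.ofReal (Real.exp (π * ρ ^ 2)) * (gw x * W g x) :=
        setLIntegral_le_lintegral _ _
    _ = ENNReal.ofReal (Real.exp (π * ρ ^ 2)) * ∫⁻ x, gw x * W g x :=
        lintegral_const_mul' _ _ ENNReal.ofReal_ne_top
    _ ≤ _ := mul_le_mul_right (lintegral_W hn hg) _

lemma add_sq_le (a b : ℝ≥0∞) : (a + b) ^ 2 ≤ 2 * a ^ 2 + 2 * b ^ 2 := by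
  have h := two_mul_le a b
  calc (a + b) ^ 2 = a ^ 2 + b ^ 2 + 2 * a * b := by ring
    _ ≤ a ^ 2 + b ^ 2 + (a ^ 2 + b ^ 2) := add_le_add le_rfl h
    _ = _ := by ring

/-- all radii from a relatively dense set of radii, pointwise -/
theorem all_radii {g : V n → ℂ} (hg : LocInt g) (E : Set ℝ) (m : ℕ)
    (hE : ∀ t : ℝ, 0 ≤ t → ∃ r ∈ E, 0 ≤ r ∧ |t - r| ≤ m) (x : V n) {R : ℝ} (hR : 0 ≤ R) :
    ‖S g R x‖ₑ ^ 2 ≤ 2 * (⨆ r ∈ E, ‖S g r x‖ₑ) ^ 2 +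
      2 * (ENNReal.ofReal ((m + 2 : ℝ) ^ 2) * W g x) := by
  obtain ⟨r, hr, hr0, hd⟩ := hE R hR
  have h1 := moves hg hR hr0 m hd x
  have h2 : ‖S g R x‖ₑ ≤ ‖S g r x‖ₑ + ‖S g R x - S g r x‖ₑ := by
    have h3 := enorm_add_le (S g r x) (S g R x - S g r x)
    rwa [add_sub_cancel] at h3
  have h4 : ‖S g r x‖ₑ ≤ ⨆ r ∈ E, ‖S g r x‖ₑ := le_iSup₂ (f := fun r (_ : r ∈ E) => ‖S g r x‖ₑ) r hr
  calc ‖S g R x‖ₑ ^ 2 ≤ (‖S g r x‖ₑ + ‖S g R x - S g r x‖ₑ) ^ 2 := pow_le_pow_left' h2 2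
    _ ≤ 2 * ‖S g r x‖ₑ ^ 2 + 2 * ‖S g R x - S g r x‖ₑ ^ 2 := add_sq_le _ _
    _ ≤ _ := add_le_add (mul_le_mul_right (pow_le_pow_left' h4 2) _) (mul_le_mul_right h1 _)

end Pool.Agent.Q302.BS
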