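import Pool.Agent.Q302.BS.Moll
import Pool.Agent.Q302.BS.Radii

/-!
# Almost everywhere convergence along the dyadic radii
-/

set_option autoImplicit false

open MeasureTheory Set Filter Topology SchwartzMap FourierTransform
open scoped ENNReal NNReal Real RealInnerProductSpace ComplexConjugate ContDiff Convolution

namespace Pool.Agent.Q302.BS

variable {n : ℕ}

lemma locInt_Lp (g : Lp (α := V n) ℂ 2) : LocInt (g : V n → ℂ) := by
  intro R
  rw [integrable_indicator_iff (measurableSet_ball' R)]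
  have hfin : IsFiniteMeasure ((volume : Measure (V n)).restrict {ξ : V n | ‖ξ‖ ≤ R}) := by
    rw [isFiniteMeasure_restrict]
    have h : {ξ : V n | ‖ξ‖ ≤ R} = Metric.closedBall 0 R := by
      ext ξ; simp
    rw [h]
    exact (isCompact_closedBall (0 : V n) R).measure_lt_top.ne
  have h1 : MemLp (g : V n → ℂ) 2 (volume.restrict {ξ : V n | ‖ξ‖ ≤ R}) :=
    (Lp.memLp g).restrict _
  exact memLp_one_iff_integrable.1 (h1.mono_exponent (by norm_num))

/-- the multiplier of the difference of a dyadic ball sum and a mollification -/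
noncomputable def mj (n j : ℕ) (ξ : V n) : ℂ :=
  {ξ : V n | ‖ξ‖ ≤ 2 ^ j}.indicator (fun _ => (1 : ℂ)) ξ - mu n ((2 ^ j : ℝ)⁻¹ • ξ)

lemma mj_bound (n : ℕ) : ∃ c : ℝ, 0 < c ∧ ∀ ξ : V n, ∃ J : ℕ, ∀ j : ℕ,
    ‖mj n j ξ‖ ≤ c * (1 / 2 : ℝ) ^ ((J - j) + (j - J)) := by
  obtain ⟨C, hC0, hC⟩ := mu_decay n
  have hpi := Real.pi_pos
  refine ⟨4 * π + 2 * C, by positivity, fun ξ => ?_⟩
  have hex : ∃ J : ℕ, ‖ξ‖ ≤ 2 ^ J := by
    obtain ⟨J, hJ⟩ := pow_unbounded_of_one_lt ‖ξ‖ (show (1 : ℝ) < 2 by norm_num)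
    exact ⟨J, hJ.le⟩
  classical
  refine ⟨Nat.find hex, fun j => ?_⟩
  have hJ := Nat.find_spec hex
  set J := Nat.find hex with hJdef
  have hhalf : ∀ i : ℕ, (1 / 2 : ℝ) ^ i = (2 ^ i)⁻¹ := fun i => by rw [one_div, inv_pow]
  by_cases hj : J ≤ j
  · have h1 : J - j = 0 := Nat.sub_eq_zero_of_le hj
    have h2 : ‖ξ‖ ≤ 2 ^ j := hJ.trans (pow_le_pow_right₀ (by norm_num) hj)
    unfold mj
    rw [indicator_of_mem (show ξ ∈ {ξ : V n | ‖ξ‖ ≤ 2 ^ j} from h2), norm_sub_rev]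
    refine (mu_sub_one _).trans ?_
    rw [norm_smul, norm_inv, norm_pow, Real.norm_eq_abs, abs_two, h1, zero_add, hhalf]
    have h3 : ((2 : ℝ) ^ j)⁻¹ * ‖ξ‖ ≤ (2 ^ (j - J))⁻¹ := by
      rw [inv_mul_le_iff₀ (by positivity), ← div_eq_mul_inv, le_div_iff₀ (by positivity)]
      calc ‖ξ‖ * 2 ^ (j - J) ≤ 2 ^ J * 2 ^ (j - J) := by gcongr
        _ = 2 ^ j := by rw [← pow_add, Nat.add_sub_cancel' hj]
    have h4 : (0 : ℝ) < (2 ^ (j - J))⁻¹ := by positivity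
    calc 4 * π * (((2 : ℝ) ^ j)⁻¹ * ‖ξ‖) ≤ 4 * π * (2 ^ (j - J))⁻¹ := by gcongr
      _ ≤ (4 * π + 2 * C) * (2 ^ (j - J))⁻¹ := by
        refine mul_le_mul_of_nonneg_right (by linarith) h4.le
  · push Not at hj
    have h1 : j - J = 0 := Nat.sub_eq_zero_of_le hj.le
    have h2 : ¬ ‖ξ‖ ≤ 2 ^ j := Nat.find_min hex hj
    have h2' : ¬ ‖ξ‖ ≤ 2 ^ (J - 1) := Nat.find_min hex (by omega)
    push Not at h2 h2'
    unfold mj
    rw [indicator_of_notMem (show ξ ∉ {ξ : V n | ‖ξ‖ ≤ 2 ^ j} from not_le.2 h2), zero_sub,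
      norm_neg, h1, add_zero, hhalf]
    have h3 := hC ((2 ^ j : ℝ)⁻¹ • ξ)
    rw [norm_smul, norm_inv, norm_pow, Real.norm_eq_abs, abs_two] at h3
    set v := ‖mu n ((2 ^ j : ℝ)⁻¹ • ξ)‖ with hv
    have hv0 : 0 ≤ v := norm_nonneg _
    have hjj : (2 : ℝ) ^ J = 2 ^ (J - j) * 2 ^ j := by
      rw [← pow_add, Nat.sub_add_cancel hj.le]
    have hJJ : (2 : ℝ) ^ J = 2 * 2 ^ (J - 1) := by
      rw [← pow_succ', Nat.sub_add_cancel (by omega)]
    have h5 : 2 ^ (J - j) * v ≤ 2 * C := by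
      have h6 : ‖ξ‖ * v ≤ C * 2 ^ j := by
        rw [inv_mul_eq_div, div_mul_eq_mul_div, div_le_iff₀ (by positivity)] at h3
        exact h3
      have h7 : 2 ^ (J - j) * 2 ^ j * v ≤ 2 * C * 2 ^ j := by
        rw [← hjj, hJJ]
        have h8 : (2 : ℝ) ^ (J - 1) * v ≤ ‖ξ‖ * v := mul_le_mul_of_nonneg_right h2'.le hv0
        linarith
      have h9 : (0 : ℝ) < 2 ^ j := by positivity
      have h10 : (2 ^ (J - j) * v) * 2 ^ j ≤ (2 * C) * 2 ^ j := by
        linarith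
      exact le_of_mul_le_mul_right h10 h9
    have h11 : (0 : ℝ) < (2 ^ (J - j))⁻¹ := by positivity
    have h12 : v = (2 ^ (J - j) * v) * (2 ^ (J - j))⁻¹ := by
      rw [mul_comm (2 ^ (J - j)) v, mul_assoc, mul_inv_cancel₀ (by positivity), mul_one]
    rw [h12]
    exact mul_le_mul_of_nonneg_right (by linarith) h11.le

lemma tsum_two_sided (J : ℕ) :
    ∑' j : ℕ, ENNReal.ofReal ((1 / 4 : ℝ) ^ ((J - j) + (j - J))) ≤ 4 := by
  set F : ℕ → ℝ≥0∞ := fun j => ENNReal.ofReal ((1 / 4 : ℝ) ^ ((J - j) + (j - J))) with hF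
  have h0 : (∑ j ∈ Finset.range J, F j) + ∑' i, F (i + J) = ∑' j, F j :=
    Summable.sum_add_tsum_nat_add' (f := F) ENNReal.summable
  rw [← h0]
  have hgeo : ∑' i : ℕ, ENNReal.ofReal ((1 / 4 : ℝ) ^ i) = ENNReal.ofReal (4 / 3) := by
    rw [← ENNReal.ofReal_tsum_of_nonneg (fun i => by positivity)
      (summable_geometric_of_lt_one (by norm_num) (by norm_num)),
      tsum_geometric_of_lt_one (by norm_num) (by norm_num)]
    norm_num
  have h1 : ∑ j ∈ Finset.range J, F j ≤ ENNReal.ofReal (4 / 3) := by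
    rw [← hgeo]
    have h2 : ∑ j ∈ Finset.range J, F j ≤
        ∑ j ∈ Finset.range J, ENNReal.ofReal ((1 / 4 : ℝ) ^ (J - 1 - j)) := by
      refine Finset.sum_le_sum fun j hj => ENNReal.ofReal_le_ofReal ?_
      rw [Finset.mem_range] at hj
      exact pow_le_pow_of_le_one (by norm_num) (by norm_num) (by omega)
    refine h2.trans ?_
    rw [Finset.sum_range_reflect (fun i => ENNReal.ofReal ((1 / 4 : ℝ) ^ i)) J]
    exact ENNReal.sum_le_tsum _
  have h2 : ∑' i : ℕ, F (i + J) = ENNReal.ofReal (4 / 3) := by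
    rw [← hgeo]
    congr 1
    ext i
    simp only [hF]
    congr 2
    omega
  rw [h2]
  calc _ ≤ ENNReal.ofReal (4 / 3) + ENNReal.ofReal (4 / 3) := add_le_add h1 le_rfl
    _ ≤ 4 := by
      rw [← ENNReal.ofReal_add (by norm_num) (by norm_num)]
      rw [show (4 : ℝ≥0∞) = ENNReal.ofReal 4 by norm_num]
      exact ENNReal.ofReal_le_ofReal (by norm_num)

lemma tsum_mj (n : ℕ) : ∃ K : ℝ≥0∞, K ≠ ⊤ ∧ ∀ ξ : V n, ∑' j : ℕ, ‖mj n j ξ‖ₑ ^ 2 ≤ K := by
  obtain ⟨c, hc, h⟩ := mj_bound n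
  refine ⟨ENNReal.ofReal (c ^ 2) * 4, ENNReal.mul_ne_top ENNReal.ofReal_ne_top (by norm_num),
    fun ξ => ?_⟩
  obtain ⟨J, hJ⟩ := h ξ
  calc ∑' j : ℕ, ‖mj n j ξ‖ₑ ^ 2
      ≤ ∑' j : ℕ, ENNReal.ofReal (c ^ 2) * ENNReal.ofReal ((1 / 4 : ℝ) ^ ((J - j) + (j - J))) := by
        refine ENNReal.tsum_le_tsum fun j => ?_
        rw [← ENNReal.ofReal_mul (by positivity), ← ofReal_norm,
          ← ENNReal.ofReal_pow (norm_nonneg _)]
        refine ENNReal.ofReal_le_ofReal ?_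
        have h1 := pow_le_pow_left₀ (norm_nonneg _) (hJ j) 2
        refine h1.trans (le_of_eq ?_)
        rw [mul_pow, ← pow_mul, mul_comm _ 2, pow_mul]
        norm_num
    _ = ENNReal.ofReal (c ^ 2) * ∑' j : ℕ, ENNReal.ofReal ((1 / 4 : ℝ) ^ ((J - j) + (j - J))) :=
        ENNReal.tsum_mul_left
    _ ≤ _ := mul_le_mul_right (tsum_two_sided J) _

lemma integrable_mu_mul (j : ℕ) (g : Lp (α := V n) ℂ 2) :
    Integrable fun ξ => mu n ((2 ^ j : ℝ)⁻¹ • ξ) * g ξ := by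
  have h2 : ((2 ^ j : ℝ)⁻¹) ≠ 0 := by positivity
  have h1 : MemLp (fun ξ : V n => mu n ((2 ^ j : ℝ)⁻¹ • ξ)) 2 volume := by
    have h3 := (compCLMOfContinuousLinearEquiv ℂ
      (ContinuousLinearEquiv.smulLeft (R₁ := ℝ) (M₁ := V n) (Units.mk0 ((2 ^ j : ℝ)⁻¹) h2))
        (mu n)).memLp 2 volume
    exact h3
  have h3 : MemLp (fun ξ => mu n ((2 ^ j : ℝ)⁻¹ • ξ) * g ξ) 1 volume :=
    MemLp.mul' (Lp.memLp g) h1
  exact memLp_one_iff_integrable.1 h3

/-- dyadic ball sums minus mollifications -/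
lemma S_sub_moll (f : Lp (α := V n) ℂ 2) (j : ℕ) (x : V n) :
    S (𝓕 f : Lp (α := V n) ℂ 2) (2 ^ j) x -
      IF (fun ξ => mu n ((2 ^ j : ℝ)⁻¹ • ξ) * (𝓕 f : Lp (α := V n) ℂ 2) ξ) x =
    IF (fun ξ => mj n j ξ * (𝓕 f : Lp (α := V n) ℂ 2) ξ) x := by
  set g : Lp (α := V n) ℂ 2 volume := 𝓕 f with hg
  unfold S IF
  rw [← integral_sub (integrable_mul_ex (locInt_Lp g (2 ^ j)) x)
    (integrable_mul_ex (integrable_mu_mul j g) x)]
  refine integral_congr_ae (Eventually.of_forall fun ξ => ?_)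
  simp only
  rw [← sub_mul]
  congr 1
  unfold mj
  by_cases h : ξ ∈ {ξ : V n | ‖ξ‖ ≤ 2 ^ j}
  · rw [indicator_of_mem h, indicator_of_mem h]; ring
  · rw [indicator_of_notMem h, indicator_of_notMem h]; ring

lemma integrable_mj_mul (j : ℕ) (g : Lp (α := V n) ℂ 2) :
    Integrable fun ξ => mj n j ξ * g ξ := by
  refine ((locInt_Lp g (2 ^ j)).sub (integrable_mu_mul j g)).congr
    (Eventually.of_forall fun ξ => ?_)
  simp only [Pi.sub_apply]
  unfold mj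
  by_cases h : ξ ∈ {ξ : V n | ‖ξ‖ ≤ 2 ^ j}
  · rw [indicator_of_mem h, indicator_of_mem h]; ring
  · rw [indicator_of_notMem h, indicator_of_notMem h]; ring

lemma lintegral_Lp_ne_top (g : Lp (α := V n) ℂ 2) : ∫⁻ ξ, ‖g ξ‖ₑ ^ 2 ≠ ⊤ := by
  have h := (Lp.memLp g).2
  rw [eLpNorm_lt_top_iff_lintegral_rpow_enorm_lt_top (by norm_num) (by norm_num)] at h
  simp only [ENNReal.toReal_ofNat, ENNReal.rpow_ofNat] at h
  exact h.ne

lemma gw_ne_zero (x : V n) : gw x ≠ 0 := by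
  unfold gw
  rw [Ne, ENNReal.ofReal_eq_zero, not_le]
  exact Real.exp_pos _

/-- if a sum of squares has finite Gaussian integral, the terms tend to zero almost everywhere -/
lemma ae_ne_top_of_lintegral {F : V n → ℝ≥0∞} (hF : AEMeasurable F)
    (h : ∫⁻ x, gw x * F x ≠ ⊤) : ∀ᵐ x : V n, F x ≠ ⊤ := by
  have h1 := ae_lt_top' (measurable_gw.aemeasurable.mul hF) h
  filter_upwards [h1] with x hx htop
  rw [Pi.mul_apply, htop, ENNReal.mul_top (gw_ne_zero x)] at hx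
  exact lt_irrefl _ hx

lemma tendsto_zero_of_tsum {z : ℕ → ℂ} (h : ∑' j, ‖z j‖ₑ ^ 2 ≠ ⊤) :
    Tendsto z atTop (𝓝 0) := by
  have h1 := ENNReal.tendsto_atTop_zero_of_tsum_ne_top h
  rw [tendsto_zero_iff_norm_tendsto_zero]
  have h2 : Tendsto (fun j => (‖z j‖ₑ ^ 2).toReal) atTop (𝓝 0) := by
    have h5 := (ENNReal.tendsto_toReal ENNReal.zero_ne_top).comp h1
    rw [ENNReal.toReal_zero] at h5
    exact h5
  have h3 : ∀ j, (‖z j‖ₑ ^ 2).toReal = ‖z j‖ ^ 2 := by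
    intro j; rw [ENNReal.toReal_pow, toReal_enorm]
  simp_rw [h3] at h2
  have h4 := h2.sqrt
  simp only [Real.sqrt_zero] at h4
  refine h4.congr fun j => ?_
  exact Real.sqrt_sq (norm_nonneg _)

theorem ae_tendsto_dyadic (f : Lp (α := V n) ℂ 2) :
    ∀ᵐ x : V n, Tendsto (fun j : ℕ => S (𝓕 f : Lp (α := V n) ℂ 2) (2 ^ j) x) atTop
      (𝓝 (f x)) := by
  set g : Lp (α := V n) ℂ 2 volume := 𝓕 f with hg
  have hloc : LocallyIntegrable (f : V n → ℂ) := (Lp.memLp f).locallyIntegrable (by norm_num)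
  have h1 := ContDiffBump.ae_convolution_tendsto_right_of_locallyIntegrable (μ := volume)
    (φ := fun j => bj n j) (l := atTop) (K := 2) (by
      have h2 : Tendsto (fun j : ℕ => 2 * ((2 : ℝ) ^ j)⁻¹) atTop (𝓝 (2 * 0)) := by
        refine Tendsto.const_mul _ ?_
        have := tendsto_pow_atTop_nhds_zero_of_lt_one (r := (1 / 2 : ℝ)) (by norm_num) (by norm_num)
        refine this.congr fun j => ?_
        rw [one_div, inv_pow]
      rw [mul_zero] at h2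
      exact h2) (Eventually.of_forall fun j => le_of_eq rfl) hloc
  obtain ⟨K, hKtop, hK⟩ := tsum_mj n
  have h3 : ∫⁻ x, gw x * ∑' j : ℕ, ‖IF (fun ξ => mj n j ξ * g ξ) x‖ₑ ^ 2 ≠ ⊤ := by
    have hm : ∀ j : ℕ, Measurable fun x => ‖IF (fun ξ => mj n j ξ * g ξ) x‖ₑ ^ 2 := fun j =>
      ((continuous_IF (integrable_mj_mul j g)).measurable.enorm).pow_const 2
    have h4 : ∫⁻ x, gw x * ∑' j : ℕ, ‖IF (fun ξ => mj n j ξ * g ξ) x‖ₑ ^ 2 ≤
        K * ∫⁻ ξ, ‖g ξ‖ₑ ^ 2 := by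
      simp_rw [← ENNReal.tsum_mul_left]
      rw [lintegral_tsum (f := fun (j : ℕ) x => gw x * ‖IF (fun ξ => mj n j ξ * g ξ) x‖ₑ ^ 2)
        fun j => (measurable_gw.mul (hm j)).aemeasurable]
      calc ∑' j : ℕ, ∫⁻ x, gw x * ‖IF (fun ξ => mj n j ξ * g ξ) x‖ₑ ^ 2
          ≤ ∑' j : ℕ, ∫⁻ ξ, ‖mj n j ξ‖ₑ ^ 2 * ‖g ξ‖ₑ ^ 2 := by
            refine ENNReal.tsum_le_tsum fun j => ?_
            have h5 := local_bound (fun ξ => mj n j ξ * g ξ) (integrable_mj_mul j g) univ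
              MeasurableSet.univ (fun ξ hξ => absurd (mem_univ ξ) hξ) 1 (fun ξ => by
                rw [Measure.restrict_univ, lintegral_gw_sub])
            rw [one_mul] at h5
            refine h5.trans (le_of_eq (lintegral_congr fun ξ => ?_))
            rw [enorm_mul, mul_pow]
        _ = ∫⁻ ξ, ∑' j : ℕ, ‖mj n j ξ‖ₑ ^ 2 * ‖g ξ‖ₑ ^ 2 := by
            rw [lintegral_tsum]
            intro j
            have hmj : Measurable (mj n j) := by
              unfold mj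
              refine (measurable_const.indicator (measurableSet_ball' _)).sub ?_
              exact ((mu n).continuous.comp (continuous_const_smul _)).measurable
            exact ((hmj.enorm.pow_const 2).aemeasurable).mul
              ((Lp.aestronglyMeasurable g).enorm.pow_const 2)
        _ ≤ ∫⁻ ξ, K * ‖g ξ‖ₑ ^ 2 := by
            refine lintegral_mono fun ξ => ?_
            rw [ENNReal.tsum_mul_right]
            exact mul_le_mul_left (hK ξ) _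
        _ = K * ∫⁻ ξ, ‖g ξ‖ₑ ^ 2 := lintegral_const_mul' _ _ hKtop
    exact ne_top_of_le_ne_top (ENNReal.mul_ne_top hKtop (lintegral_Lp_ne_top g)) h4
  have h6 : ∀ᵐ x : V n, ∑' j : ℕ, ‖IF (fun ξ => mj n j ξ * g ξ) x‖ₑ ^ 2 ≠ ⊤ := by
    refine ae_ne_top_of_lintegral ?_ h3
    exact (Measurable.tsum fun j =>
      ((continuous_IF (integrable_mj_mul j g)).measurable.enorm).pow_const 2).aemeasurable
  filter_upwards [h1, h6] with x hx1 hx2
  have h7 := tendsto_zero_of_tsum hx2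
  have h8 : Tendsto (fun j : ℕ => IF (fun ξ => mu n ((2 ^ j : ℝ)⁻¹ • ξ) * g ξ) x) atTop
      (𝓝 (f x)) := by
    refine hx1.congr fun j => ?_
    exact moll_eq f j x
  have h9 := h7.add h8
  rw [zero_add] at h9
  refine h9.congr fun j => ?_
  rw [← S_sub_moll f j x]
  ring

end Pool.Agent.Q302.BS
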