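import Pool.Agent.Q302.BS.Slab

/-!
# The local estimate

For `g` integrable and `E(x) = ∫ g(ξ) e^(2πi⟨x,ξ⟩) dξ` one has
`∫ e^(-π‖x‖²) |E(x)|² dx ≤ K ∫ |g|²` whenever the Gaussian masses of the support of `g` are at most `K`.
-/

set_option autoImplicit false

open MeasureTheory Set Filter Topology
open scoped ENNReal NNReal Real RealInnerProductSpace ComplexConjugate

namespace Pool.Agent.Q302.BS

/-- the exponential `e^(2πi⟨x,ξ⟩)` -/
noncomputable def ex {n : ℕ} (x ξ : V n) : ℂ := Complex.exp (2 * π * Complex.I * ⟪x, ξ⟫)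

lemma norm_ex {n : ℕ} (x ξ : V n) : ‖ex x ξ‖ = 1 := by
  unfold ex
  rw [show (2 * π * Complex.I * ⟪x, ξ⟫ : ℂ) = ((2 * π * ⟪x, ξ⟫ : ℝ) : ℂ) * Complex.I by
    push_cast; ring]
  exact Complex.norm_exp_ofReal_mul_I _

lemma continuous_ex {n : ℕ} : Continuous fun p : V n × V n => ex p.1 p.2 := by
  unfold ex
  fun_prop

/-- the inverse Fourier integral -/
noncomputable def IF {n : ℕ} (g : V n → ℂ) (x : V n) : ℂ := ∫ ξ, g ξ * ex x ξ

lemma integral_gauss_ex {n : ℕ} (w : V n) :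
    ∫ x : V n, (Real.exp (-π * ‖x‖ ^ 2) : ℂ) * ex x w = (Real.exp (-π * ‖w‖ ^ 2) : ℂ) := by
  have h := GaussianFourier.integral_cexp_neg_mul_sq_norm_add (V := V n) (b := (π : ℂ))
    (by simpa using Real.pi_pos) (2 * π * Complex.I) w
  have h1 : ∀ x : V n, (Real.exp (-π * ‖x‖ ^ 2) : ℂ) * ex x w =
      Complex.exp (-(π : ℂ) * ‖x‖ ^ 2 + 2 * π * Complex.I * ⟪w, x⟫) := by
    intro x
    unfold ex
    rw [Complex.exp_add, real_inner_comm]
    push_cast
    rfl
  simp_rw [h1]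
  rw [h, div_self (by exact_mod_cast Real.pi_pos.ne'), Complex.one_cpow, one_mul]
  push_cast
  congr 1
  have hpi : (π : ℂ) ≠ 0 := by exact_mod_cast Real.pi_pos.ne'
  field_simp
  rw [Complex.I_sq]
  ring

lemma two_mul_le (a b : ℝ≥0∞) : 2 * a * b ≤ a ^ 2 + b ^ 2 := by
  rcases eq_or_ne a ⊤ with rfl | ha
  · simp
  rcases eq_or_ne b ⊤ with rfl | hb
  · simp
  lift a to ℝ≥0 using ha
  lift b to ℝ≥0 using hb
  exact_mod_cast two_mul_le_add_sq a b

/-- **The local estimate.** -/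
theorem local_bound {n : ℕ} (g : V n → ℂ) (hg : Integrable g) (A : Set (V n))
    (hA : MeasurableSet A) (hgA : ∀ ξ ∉ A, g ξ = 0) (K : ℝ≥0∞)
    (hK : ∀ ξ : V n, ∫⁻ η in A, gw (ξ - η) ≤ K) :
    ∫⁻ x, gw x * ‖IF g x‖ₑ ^ 2 ≤ K * ∫⁻ ξ, ‖g ξ‖ₑ ^ 2 := by
  -- the function of three variables
  set H : V n → V n × V n → ℂ := fun x p =>
    (Real.exp (-π * ‖x‖ ^ 2) : ℂ) * (g p.1 * conj (g p.2) * ex x (p.1 - p.2)) with hH
  have hgc : Integrable (fun ξ => conj (g ξ)) := by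
    refine hg.congr' (Complex.continuous_conj.comp_aestronglyMeasurable hg.1) ?_
    exact Eventually.of_forall fun ξ => (RCLike.norm_conj (g ξ)).symm
  have hgg : Integrable (fun p : V n × V n => g p.1 * conj (g p.2)) (volume.prod volume) :=
    hg.mul_prod hgc
  have hgaussC : Integrable (fun x : V n => (Real.exp (-π * ‖x‖ ^ 2) : ℂ)) :=
    integrable_gauss.ofReal
  have hcont : Continuous fun q : V n × (V n × V n) => ex q.1 (q.2.1 - q.2.2) := by
    unfold ex; fun_prop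
  have hint : Integrable (fun q : V n × (V n × V n) => H q.1 q.2)
      (volume.prod (volume.prod volume)) := by
    have h0 : Integrable (fun q : V n × (V n × V n) =>
        (Real.exp (-π * ‖q.1‖ ^ 2) : ℂ) * (g q.2.1 * conj (g q.2.2)))
        (volume.prod (volume.prod volume)) :=
      hgaussC.mul_prod hgg
    have h1 : Integrable (fun q : V n × (V n × V n) =>
        ex q.1 (q.2.1 - q.2.2) * ((Real.exp (-π * ‖q.1‖ ^ 2) : ℂ) * (g q.2.1 * conj (g q.2.2))))
        (volume.prod (volume.prod volume)) := by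
      refine h0.bdd_mul (c := 1) hcont.aestronglyMeasurable ?_
      exact Eventually.of_forall fun q => (norm_ex _ _).le
    refine h1.congr (Eventually.of_forall fun q => ?_)
    simp only [hH]
    ring
  -- the square of the modulus as a double integral
  have hsq : ∀ x : V n, ((Real.exp (-π * ‖x‖ ^ 2) * ‖IF g x‖ ^ 2 : ℝ) : ℂ) =
      ∫ p, H x p ∂(volume.prod volume) := by
    intro x
    have h1 : ∫ p : V n × V n, (g p.1 * ex x p.1) * conj (g p.2 * ex x p.2)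
        ∂(volume.prod volume) = IF g x * conj (IF g x) := by
      rw [integral_prod_mul (fun ξ => g ξ * ex x ξ) (fun ξ => conj (g ξ * ex x ξ)), integral_conj]
      rfl
    have h2 : ∀ p : V n × V n, H x p = (Real.exp (-π * ‖x‖ ^ 2) : ℂ) *
        ((g p.1 * ex x p.1) * conj (g p.2 * ex x p.2)) := by
      intro p
      simp only [hH]
      have h3 : ex x (p.1 - p.2) = ex x p.1 * conj (ex x p.2) := by
        unfold ex
        rw [← Complex.exp_conj, ← Complex.exp_add, inner_sub_right]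
        congr 1
        simp only [map_mul, Complex.conj_ofReal, Complex.conj_I, map_ofNat, Complex.ofReal_sub]
        ring
      rw [h3, map_mul]
      ring
    simp_rw [h2]
    rw [integral_const_mul, h1, Complex.mul_conj, Complex.normSq_eq_norm_sq]
    push_cast
    ring
  have hswap : ((∫ x, Real.exp (-π * ‖x‖ ^ 2) * ‖IF g x‖ ^ 2 : ℝ) : ℂ) =
      ∫ p : V n × V n, g p.1 * conj (g p.2) * (Real.exp (-π * ‖p.1 - p.2‖ ^ 2) : ℂ)
        ∂(volume.prod volume) := by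
    have h0 : ((∫ x, Real.exp (-π * ‖x‖ ^ 2) * ‖IF g x‖ ^ 2 : ℝ) : ℂ) =
        ∫ x, ((Real.exp (-π * ‖x‖ ^ 2) * ‖IF g x‖ ^ 2 : ℝ) : ℂ) := integral_ofReal.symm
    rw [h0]
    simp_rw [hsq]
    rw [integral_integral_swap hint]
    refine integral_congr_ae (Eventually.of_forall fun p => ?_)
    simp only [hH]
    have h4 : ∀ x : V n, (Real.exp (-π * ‖x‖ ^ 2) : ℂ) *
        (g p.1 * conj (g p.2) * ex x (p.1 - p.2)) = (g p.1 * conj (g p.2)) *
        ((Real.exp (-π * ‖x‖ ^ 2) : ℂ) * ex x (p.1 - p.2)) := fun x => by ring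
    simp_rw [h4]
    rw [integral_const_mul, integral_gauss_ex]
  have hnn : ∀ x : V n, 0 ≤ Real.exp (-π * ‖x‖ ^ 2) * ‖IF g x‖ ^ 2 := fun x => by positivity
  have hInt : Integrable (fun x : V n => Real.exp (-π * ‖x‖ ^ 2) * ‖IF g x‖ ^ 2) := by
    have h1 := hint.integral_prod_left
    refine (h1.re).congr (Eventually.of_forall fun x => ?_)
    show RCLike.re (∫ p, H x p ∂(volume.prod volume)) = _
    rw [← hsq x]
    exact Complex.ofReal_re _
  have e1 : ∫⁻ x, gw x * ‖IF g x‖ₑ ^ 2 =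
      ENNReal.ofReal (∫ x, Real.exp (-π * ‖x‖ ^ 2) * ‖IF g x‖ ^ 2) := by
    rw [ofReal_integral_eq_lintegral_ofReal hInt (Eventually.of_forall hnn)]
    refine lintegral_congr fun x => ?_
    rw [ENNReal.ofReal_mul (Real.exp_pos _).le, ENNReal.ofReal_pow (norm_nonneg _),
      ofReal_norm]
    rfl
  rw [e1]
  have e2 : ENNReal.ofReal (∫ x, Real.exp (-π * ‖x‖ ^ 2) * ‖IF g x‖ ^ 2) ≤
      ‖∫ p : V n × V n, g p.1 * conj (g p.2) * (Real.exp (-π * ‖p.1 - p.2‖ ^ 2) : ℂ)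
        ∂(volume.prod volume)‖ₑ := by
    rw [← hswap]
    rw [← ofReal_norm, Complex.norm_real]
    exact ENNReal.ofReal_le_ofReal (Real.le_norm_self _)
  refine e2.trans ((enorm_integral_le_lintegral_enorm _).trans ?_)
  -- Schur's test
  set a : V n → ℝ≥0∞ := fun ξ => ‖g ξ‖ₑ with ha
  have ham : AEMeasurable a := hg.1.enorm
  have ha0 : ∀ ξ ∉ A, a ξ = 0 := fun ξ hξ => by simp [ha, hgA ξ hξ]
  set k : V n × V n → ℝ≥0∞ := fun p => A.indicator (fun _ => 1) p.1 * A.indicator (fun _ => 1) p.2 *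
    gw (p.1 - p.2) with hk
  have hindm : Measurable (A.indicator (fun _ : V n => (1 : ℝ≥0∞))) :=
    measurable_const.indicator hA
  have hkm : Measurable k :=
    ((hindm.comp measurable_fst).mul (hindm.comp measurable_snd)).mul
      (measurable_gw.comp (measurable_fst.sub measurable_snd))
  have e3 : ∀ p : V n × V n, ‖g p.1 * conj (g p.2) * (Real.exp (-π * ‖p.1 - p.2‖ ^ 2) : ℂ)‖ₑ =
      a p.1 * a p.2 * k p := by
    intro p
    have h5 : ‖(Real.exp (-π * ‖p.1 - p.2‖ ^ 2) : ℂ)‖ₑ = gw (p.1 - p.2) := by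
      unfold gw
      rw [← ofReal_norm, Complex.norm_real, Real.norm_of_nonneg (Real.exp_pos _).le]
    have h6 : ‖conj (g p.2)‖ₑ = a p.2 := by
      simp only [ha]
      rw [← ofReal_norm, ← ofReal_norm, RCLike.norm_conj]
    rw [enorm_mul, enorm_mul, h5, h6]
    by_cases h1 : p.1 ∈ A
    · by_cases h2 : p.2 ∈ A
      · simp [hk, ha, h1, h2]
      · rw [ha0 _ h2]; simp
    · have h7 : a p.1 = 0 := ha0 _ h1
      have h8 : ‖g p.1‖ₑ = 0 := h7
      rw [h7, h8]; simp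
  simp_rw [e3]
  have hrow : ∀ ξ : V n, ∫⁻ η, k (ξ, η) ≤ K := by
    intro ξ
    refine le_trans ?_ (hK ξ)
    rw [← lintegral_indicator hA]
    refine lintegral_mono fun η => ?_
    simp only [hk]
    by_cases h2 : η ∈ A
    · simp only [h2, indicator_of_mem, mul_one]
      by_cases h1 : ξ ∈ A
      · simp [h1]
      · simp [h1]
    · simp [h2]
  have hcol : ∀ η : V n, ∫⁻ ξ, k (ξ, η) ≤ K := by
    intro η
    refine le_trans (lintegral_mono fun ξ => ?_) (hrow η)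
    simp only [hk]
    rw [← gw_neg (ξ - η), neg_sub]
    rw [mul_comm (A.indicator (fun _ => (1 : ℝ≥0∞)) ξ)]
  have hm1 : AEMeasurable (fun p : V n × V n => a p.1 ^ 2 * k p) (volume.prod volume) :=
    ((ham.comp_fst).pow_const 2).mul hkm.aemeasurable
  have hm2 : AEMeasurable (fun p : V n × V n => a p.2 ^ 2 * k p) (volume.prod volume) :=
    ((ham.comp_snd).pow_const 2).mul hkm.aemeasurable
  have i1 : ∫⁻ p : V n × V n, a p.1 ^ 2 * k p ∂(volume.prod volume) ≤ K * ∫⁻ ξ, a ξ ^ 2 := by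
    rw [lintegral_prod _ hm1]
    calc ∫⁻ ξ, ∫⁻ η, a ξ ^ 2 * k (ξ, η) = ∫⁻ ξ, a ξ ^ 2 * ∫⁻ η, k (ξ, η) := by
          refine lintegral_congr fun ξ => ?_
          exact lintegral_const_mul _ (hkm.comp measurable_prodMk_left)
      _ ≤ ∫⁻ ξ, a ξ ^ 2 * K := lintegral_mono fun ξ => by gcongr; exact hrow ξ
      _ = K * ∫⁻ ξ, a ξ ^ 2 := by
          rw [lintegral_mul_const'' _ (ham.pow_const 2), mul_comm]
  have i2 : ∫⁻ p : V n × V n, a p.2 ^ 2 * k p ∂(volume.prod volume) ≤ K * ∫⁻ ξ, a ξ ^ 2 := by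
    rw [lintegral_prod_symm _ hm2]
    calc ∫⁻ η, ∫⁻ ξ, a η ^ 2 * k (ξ, η) = ∫⁻ η, a η ^ 2 * ∫⁻ ξ, k (ξ, η) := by
          refine lintegral_congr fun η => ?_
          exact lintegral_const_mul _ (hkm.comp measurable_prodMk_right)
      _ ≤ ∫⁻ η, a η ^ 2 * K := lintegral_mono fun η => by gcongr; exact hcol η
      _ = K * ∫⁻ ξ, a ξ ^ 2 := by
          rw [lintegral_mul_const'' _ (ham.pow_const 2), mul_comm]
  have h2 : 2 * ∫⁻ p : V n × V n, a p.1 * a p.2 * k p ∂(volume.prod volume) ≤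
      2 * (K * ∫⁻ ξ, a ξ ^ 2) := by
    rw [← lintegral_const_mul' _ _ (by norm_num)]
    calc ∫⁻ p : V n × V n, 2 * (a p.1 * a p.2 * k p) ∂(volume.prod volume)
        ≤ ∫⁻ p : V n × V n, (a p.1 ^ 2 * k p + a p.2 ^ 2 * k p) ∂(volume.prod volume) := by
          refine lintegral_mono fun p => ?_
          have h3 : 2 * a p.1 * a p.2 ≤ a p.1 ^ 2 + a p.2 ^ 2 := two_mul_le _ _
          calc 2 * (a p.1 * a p.2 * k p) = (2 * a p.1 * a p.2) * k p := by ring
            _ ≤ (a p.1 ^ 2 + a p.2 ^ 2) * k p := mul_le_mul_left h3 _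
            _ = _ := add_mul _ _ _
      _ = ∫⁻ p : V n × V n, a p.1 ^ 2 * k p ∂(volume.prod volume) +
          ∫⁻ p : V n × V n, a p.2 ^ 2 * k p ∂(volume.prod volume) :=
          lintegral_add_left' hm1 _
      _ ≤ (K * ∫⁻ ξ, a ξ ^ 2) + (K * ∫⁻ ξ, a ξ ^ 2) := add_le_add i1 i2
      _ = 2 * (K * ∫⁻ ξ, a ξ ^ 2) := (two_mul _).symm
  exact (ENNReal.mul_le_mul_iff_right (by norm_num) (by norm_num)).1 h2

end Pool.Agent.Q302.BS
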