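import Pool.Agent.Q302.BS.Chain

/-!
# Mollification of functions in `L²` on the Fourier side
-/

set_option autoImplicit false

open MeasureTheory Set Filter Topology SchwartzMap FourierTransform ContinuousLinearMap
open scoped ENNReal NNReal Real RealInnerProductSpace ComplexConjugate ContDiff Convolution

namespace Pool.Agent.Q302.BS

variable {n : ℕ}

/-- the bump of radius `2 · 2^(-j)` -/
noncomputable def bj (n j : ℕ) : ContDiffBump (0 : V n) where
  rIn := (2 ^ j)⁻¹
  rOut := 2 * (2 ^ j)⁻¹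
  rIn_pos := by positivity
  rIn_lt_rOut := by
    have : (0 : ℝ) < (2 ^ j)⁻¹ := by positivity
    linarith

/-- the normalised bump -/
noncomputable def ph (n j : ℕ) : V n → ℝ := (bj n j).normed volume

lemma ph_scale (j : ℕ) (x : V n) : ph n j x = (2 ^ j) ^ n * ph n 0 ((2 ^ j : ℝ) • x) := by
  have h2 : (0 : ℝ) < 2 ^ j := by positivity
  have h1 : ∀ y : V n, bj n j y = bj n 0 ((2 ^ j : ℝ) • y) := by
    intro y
    rw [ContDiffBump.apply, ContDiffBump.apply]
    have h3 : (bj n j).rOut / (bj n j).rIn = 2 := by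
      show 2 * ((2 : ℝ) ^ j)⁻¹ / ((2 : ℝ) ^ j)⁻¹ = 2
      field_simp
    have h4 : (bj n 0).rOut / (bj n 0).rIn = 2 := by
      show 2 * ((2 : ℝ) ^ 0)⁻¹ / ((2 : ℝ) ^ 0)⁻¹ = 2
      norm_num
    rw [h3, h4]
    congr 1
    show (((2 : ℝ) ^ j)⁻¹)⁻¹ • (y - 0) = (((2 : ℝ) ^ 0)⁻¹)⁻¹ • ((2 ^ j : ℝ) • y - 0)
    simp
  unfold ph
  rw [ContDiffBump.normed_def, ContDiffBump.normed_def, h1 x]
  have h5 : ∫ y : V n, bj n j y = ((2 ^ j) ^ n : ℝ)⁻¹ * ∫ y : V n, bj n 0 y := by
    simp_rw [h1]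
    have h6 := Measure.integral_comp_smul_of_nonneg (volume : Measure (V n))
      (fun y => bj n 0 y) (2 ^ j : ℝ) (hR := h2.le)
    rw [finrank_euclideanSpace, Fintype.card_fin] at h6
    exact h6
  rw [h5]
  have h7 : ((2 ^ j : ℝ) ^ n) ≠ 0 := by positivity
  have h8 : (∫ y : V n, bj n 0 y) ≠ 0 := ((bj n 0).integral_pos (μ := volume)).ne'
  field_simp

/-- the bump as a Schwartz function, reflected and translated -/
noncomputable def us (n j : ℕ) (x : V n) : 𝓢(V n, ℂ) :=
  HasCompactSupport.toSchwartzMap (f := fun t : V n => (ph n j (x - t) : ℂ))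
    (by
      have h1 : HasCompactSupport (ph n j) := (bj n j).hasCompactSupport_normed
      have h2 : HasCompactSupport fun t : V n => ph n j (x - t) :=
        h1.comp_homeomorph (Homeomorph.subLeft x)
      exact h2.comp_left (g := fun r : ℝ => (r : ℂ)) (by simp))
    (by
      have h1 : ContDiff ℝ ∞ (ph n j) := (bj n j).contDiff_normed
      exact Complex.ofRealCLM.contDiff.comp (h1.comp (contDiff_const.sub contDiff_id)))

lemma us_apply (j : ℕ) (x t : V n) : us n j x t = (ph n j (x - t) : ℂ) := rfl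

/-- the unit bump as a Schwartz function -/
noncomputable def u0 (n : ℕ) : 𝓢(V n, ℂ) :=
  HasCompactSupport.toSchwartzMap (f := fun t : V n => (ph n 0 t : ℂ))
    (by
      have h1 : HasCompactSupport (ph n 0) := (bj n 0).hasCompactSupport_normed
      exact h1.comp_left (g := fun r : ℝ => (r : ℂ)) (by simp))
    (by
      have h1 : ContDiff ℝ ∞ (ph n 0) := (bj n 0).contDiff_normed
      exact Complex.ofRealCLM.contDiff.comp h1)

lemma u0_apply (t : V n) : u0 n t = (ph n 0 t : ℂ) := rfl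

/-- the multiplier -/
noncomputable def mu (n : ℕ) : 𝓢(V n, ℂ) := 𝓕 (u0 n)

lemma mu_eq (ξ : V n) : mu n ξ = ∫ s : V n, (ph n 0 s : ℂ) * conj (ex s ξ) := by
  show 𝓕 (u0 n) ξ = _
  rw [fourier_coe, Real.fourier_eq']
  refine integral_congr_ae (Eventually.of_forall fun s => ?_)
  simp only [u0_apply, smul_eq_mul]
  rw [mul_comm]
  congr 1
  unfold ex
  rw [← Complex.exp_conj]
  congr 1
  simp only [map_mul, Complex.conj_ofReal, Complex.conj_I, map_ofNat]
  push_cast
  ring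

lemma conj_fourier_us (j : ℕ) (x ξ : V n) :
    conj (𝓕 (us n j x) ξ) = mu n ((2 ^ j : ℝ)⁻¹ • ξ) * ex x ξ := by
  rw [fourier_coe, Real.fourier_eq', ← integral_conj]
  have h1 : ∀ t : V n, conj (Complex.exp (((-2 * π * ⟪t, ξ⟫ : ℝ) : ℂ) * Complex.I) •
      us n j x t) = (fun s : V n => (ph n j s : ℂ) * conj (ex s ξ) * ex x ξ) (x - t) := by
    intro t
    have key : conj (Complex.exp (((-2 * π * ⟪t, ξ⟫ : ℝ) : ℂ) * Complex.I)) =
        conj (ex (x - t) ξ) * ex x ξ := by
      unfold ex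
      rw [← Complex.exp_conj, ← Complex.exp_conj, ← Complex.exp_add, inner_sub_left]
      congr 1
      simp only [map_mul, Complex.conj_ofReal, Complex.conj_I, map_ofNat]
      push_cast
      ring
    simp only [us_apply, smul_eq_mul, map_mul, Complex.conj_ofReal]
    rw [key]
    ring
  simp_rw [h1]
  rw [integral_sub_left_eq_self (fun s : V n => (ph n j s : ℂ) * conj (ex s ξ) * ex x ξ)]
  rw [integral_mul_const, mu_eq]
  congr 1
  have h2 : (0 : ℝ) < 2 ^ j := by positivity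
  have h3 := Measure.integral_comp_smul_of_nonneg (volume : Measure (V n))
    (fun s : V n => (ph n 0 s : ℂ) * conj (ex s ((2 ^ j : ℝ)⁻¹ • ξ))) (2 ^ j : ℝ) (hR := h2.le)
  rw [finrank_euclideanSpace, Fintype.card_fin] at h3
  have h4 : ∀ s : V n, (ph n j s : ℂ) * conj (ex s ξ) = (((2 ^ j) ^ n : ℝ) : ℂ) *
      ((ph n 0 ((2 ^ j : ℝ) • s) : ℂ) * conj (ex ((2 ^ j : ℝ) • s) ((2 ^ j : ℝ)⁻¹ • ξ))) := by
    intro s
    rw [ph_scale j s]
    have h5 : ex ((2 ^ j : ℝ) • s) ((2 ^ j : ℝ)⁻¹ • ξ) = ex s ξ := by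
      unfold ex
      rw [inner_smul_left, inner_smul_right]
      simp only [conj_trivial]
      rw [mul_inv_cancel_left₀ h2.ne']
    rw [h5]
    push_cast
    ring
  simp_rw [h4]
  rw [integral_const_mul, h3]
  rw [Complex.real_smul, ← mul_assoc, ← Complex.ofReal_mul, mul_inv_cancel₀ (by positivity),
    Complex.ofReal_one, one_mul]

lemma mu_sub_one (ξ : V n) : ‖mu n ξ - 1‖ ≤ 4 * π * ‖ξ‖ := by
  have hint : Integrable (ph n 0) := (bj n 0).integrable_normed
  have h1 : (1 : ℂ) = ∫ s : V n, (ph n 0 s : ℂ) := by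
    have h9 : ∫ s : V n, (ph n 0 s : ℂ) = ((∫ s : V n, ph n 0 s : ℝ) : ℂ) := integral_ofReal
    rw [h9]
    unfold ph
    rw [(bj n 0).integral_normed]
    simp
  have h0 : Integrable fun s : V n => (ph n 0 s : ℂ) := hint.ofReal
  have h2 : Integrable fun s : V n => (ph n 0 s : ℂ) * conj (ex s ξ) := by
    have h3 : Integrable fun s : V n => conj (ex s ξ) * (ph n 0 s : ℂ) := by
      refine h0.bdd_mul (c := 1) ?_ (Eventually.of_forall fun s => ?_)
      · exact (Complex.continuous_conj.comp (continuous_ex.comp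
          (by fun_prop : Continuous fun s : V n => (s, ξ)))).aestronglyMeasurable
      · rw [RCLike.norm_conj, norm_ex]
    exact h3.congr (Eventually.of_forall fun s => mul_comm _ _)
  rw [mu_eq, h1, ← integral_sub h2 h0]
  refine (norm_integral_le_integral_norm _).trans ?_
  have h5 : ∀ s : V n, ‖(ph n 0 s : ℂ) * conj (ex s ξ) - (ph n 0 s : ℂ)‖ ≤
      ph n 0 s * (4 * π * ‖ξ‖) := by
    intro s
    have hnn : 0 ≤ ph n 0 s := (bj n 0).nonneg_normed s
    rw [← mul_sub_one, norm_mul, Complex.norm_real, Real.norm_of_nonneg hnn]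
    by_cases hs : ph n 0 s = 0
    · rw [hs, zero_mul, zero_mul]
    · refine mul_le_mul_of_nonneg_left ?_ hnn
      have h6 : s ∈ Function.support (ph n 0) := hs
      unfold ph at h6
      rw [(bj n 0).support_normed_eq] at h6
      have h7 : ‖s‖ < 2 := by
        have h8 : (bj n 0).rOut = 2 := by
          show 2 * ((2 : ℝ) ^ 0)⁻¹ = 2
          norm_num
        rw [h8] at h6
        simpa using h6
      have h9 : conj (ex s ξ) - 1 = conj (ex s ξ - 1) := by simp
      rw [h9, RCLike.norm_conj]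
      unfold ex
      rw [show (2 * π * Complex.I * ⟪s, ξ⟫ : ℂ) = Complex.I * ((2 * π * ⟪s, ξ⟫ : ℝ) : ℂ) by
        push_cast; ring]
      refine (Real.norm_exp_I_mul_ofReal_sub_one_le).trans ?_
      rw [Real.norm_eq_abs, abs_mul, abs_of_pos (by positivity)]
      have h10 : |⟪s, ξ⟫| ≤ ‖s‖ * ‖ξ‖ := abs_real_inner_le_norm s ξ
      have h11 : ‖s‖ * ‖ξ‖ ≤ 2 * ‖ξ‖ := mul_le_mul_of_nonneg_right h7.le (norm_nonneg _)
      nlinarith [Real.pi_pos]
  calc ∫ s : V n, ‖(ph n 0 s : ℂ) * conj (ex s ξ) - (ph n 0 s : ℂ)‖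
      ≤ ∫ s : V n, ph n 0 s * (4 * π * ‖ξ‖) :=
        integral_mono (h2.sub h0).norm (hint.mul_const _) h5
    _ = 4 * π * ‖ξ‖ := by
        rw [integral_mul_const]
        unfold ph
        rw [(bj n 0).integral_normed, one_mul]

lemma mu_decay (n : ℕ) : ∃ C : ℝ, 0 < C ∧ ∀ ξ : V n, ‖ξ‖ * ‖mu n ξ‖ ≤ C := by
  obtain ⟨C, hC0, hC⟩ := (mu n).decay 1 0
  refine ⟨C, hC0, fun ξ => ?_⟩
  have := hC ξ
  rwa [pow_one, norm_iteratedFDeriv_zero] at this

/-- the mollified function as an integral on the Fourier side -/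
theorem moll_eq (f : Lp (α := V n) ℂ 2) (j : ℕ) (x : V n) :
    ((ph n j) ⋆[lsmul ℝ ℝ, volume] (f : V n → ℂ)) x =
      IF (fun ξ => mu n ((2 ^ j : ℝ)⁻¹ • ξ) * (𝓕 f : Lp (α := V n) ℂ 2) ξ) x := by
  have h1 : ((ph n j) ⋆[lsmul ℝ ℝ, volume] (f : V n → ℂ)) x =
      inner ℂ ((us n j x).toLp 2 volume) f := by
    rw [convolution_eq_swap, L2.inner_def]
    refine integral_congr_ae ?_
    filter_upwards [(us n j x).coeFn_toLp 2 volume] with t ht
    rw [ht, us_apply]
    simp only [lsmul_apply, RCLike.inner_apply, Complex.conj_ofReal, Complex.real_smul]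
    ring
  rw [h1, ← Lp.inner_fourier_eq, SchwartzMap.toLp_fourier_eq, L2.inner_def]
  unfold IF
  refine integral_congr_ae ?_
  filter_upwards [(𝓕 (us n j x)).coeFn_toLp 2 volume] with ξ hξ
  rw [hξ]
  simp only [RCLike.inner_apply]
  rw [conj_fourier_us]
  ring

end Pool.Agent.Q302.BS
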