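import Pool.Agent.Q302.BS.Win
import Pool.Agent.Q302.BS.Kol

/-!
# Almost everywhere convergence of ball sums for random multipliers constant on thin shells
-/

set_option autoImplicit false

open MeasureTheory ProbabilityTheory Set Filter Topology SchwartzMap FourierTransform
open scoped ENNReal NNReal Real RealInnerProductSpace ComplexConjugate

namespace Pool.Agent.Q302.BS

variable {n : ℕ}

/-- far windows: if the windows from `K` on are bounded by `s`, ball sums of radii at distance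
at most `m` differ by at most `(m + 2) s` -/
theorem moves_far {g : V n → ℂ} (hg : LocInt g) (x : V n) (hW : W g x ≠ ⊤) {s : ℝ} (hs0 : 0 ≤ s)
    (K : ℕ) (hs : ∀ k ≥ K, Real.sqrt (G g (k : ℕ) x).toReal ≤ s) {R r : ℝ} (hR : (K : ℝ) ≤ R)
    (hr : (K : ℝ) ≤ r) (m : ℕ) (hm : |R - r| ≤ m) :
    ‖S g R x - S g r x‖ ≤ (m + 2) * s := by
  have hR0 : 0 ≤ R := (Nat.cast_nonneg K).trans hR
  have hr0 : 0 ≤ r := (Nat.cast_nonneg K).trans hr
  have hfl : ∀ {R : ℝ}, (K : ℝ) ≤ R → ‖S g R x - S g (⌊R⌋₊ : ℝ) x‖ ≤ s := by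
    intro R hR
    have hR0 : 0 ≤ R := (Nat.cast_nonneg K).trans hR
    exact (norm_le_sqrt (ne_top_of_tsum hW _) (window_bound hg (Nat.cast_nonneg _)
      (Nat.floor_le hR0) (Nat.lt_floor_add_one R).le x)).trans (hs _ (Nat.le_floor hR))
  have hone : ∀ k : ℕ, K ≤ k → ‖S g ((k + 1 : ℕ) : ℝ) x - S g (k : ℝ) x‖ ≤ s := by
    intro k hk
    refine (norm_le_sqrt (ne_top_of_tsum hW _) (window_bound hg (Nat.cast_nonneg k) ?_ ?_ x)).trans
      (hs k hk)
    · push_cast; linarith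
    · push_cast; linarith
  have hmany : ∀ i k : ℕ, K ≤ k → ‖S g ((k + i : ℕ) : ℝ) x - S g (k : ℝ) x‖ ≤ i * s := by
    intro i k hk
    induction i with
    | zero => simp
    | succ i ih =>
        have h1 := hone (k + i) (by omega)
        calc ‖S g ((k + (i + 1) : ℕ) : ℝ) x - S g (k : ℝ) x‖
            = ‖(S g ((k + i + 1 : ℕ) : ℝ) x - S g ((k + i : ℕ) : ℝ) x) +
              (S g ((k + i : ℕ) : ℝ) x - S g (k : ℝ) x)‖ := by rw [sub_add_sub_cancel]; rfl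
          _ ≤ _ + _ := norm_add_le _ _
          _ ≤ s + i * s := add_le_add h1 ih
          _ = ((i + 1 : ℕ) : ℝ) * s := by push_cast; ring
  have hkl : ∀ k l : ℕ, K ≤ k → k ≤ l → l ≤ k + m → ‖S g (l : ℝ) x - S g (k : ℝ) x‖ ≤ m * s := by
    intro k l h0 h1 h2
    obtain ⟨i, rfl⟩ := Nat.exists_eq_add_of_le h1
    refine (hmany i k h0).trans (mul_le_mul_of_nonneg_right ?_ hs0)
    exact_mod_cast (by omega : i ≤ m)
  have hfloor : ∀ {a b : ℝ}, 0 ≤ a → 0 ≤ b → b ≤ a + m → ⌊b⌋₊ ≤ ⌊a⌋₊ + m := by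
    intro a b ha hb h
    rw [← Nat.floor_add_natCast ha]
    exact Nat.floor_le_floor h
  rw [abs_le] at hm
  have hKR : K ≤ ⌊R⌋₊ := Nat.le_floor hR
  have hKr : K ≤ ⌊r⌋₊ := Nat.le_floor hr
  have hmid : ‖S g (⌊R⌋₊ : ℝ) x - S g (⌊r⌋₊ : ℝ) x‖ ≤ m * s := by
    rcases le_total ⌊r⌋₊ ⌊R⌋₊ with h | h
    · exact hkl _ _ hKr h (hfloor hr0 hR0 (by linarith [hm.2]))
    · rw [norm_sub_rev]
      exact hkl _ _ hKR h (hfloor hR0 hr0 (by linarith [hm.1]))
  calc ‖S g R x - S g r x‖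
      = ‖(S g R x - S g (⌊R⌋₊ : ℝ) x) + ((S g (⌊R⌋₊ : ℝ) x - S g (⌊r⌋₊ : ℝ) x) -
        (S g r x - S g (⌊r⌋₊ : ℝ) x))‖ := by congr 1; ring
    _ ≤ ‖S g R x - S g (⌊R⌋₊ : ℝ) x‖ + ‖(S g (⌊R⌋₊ : ℝ) x - S g (⌊r⌋₊ : ℝ) x) -
        (S g r x - S g (⌊r⌋₊ : ℝ) x)‖ := norm_add_le _ _
    _ ≤ s + (m * s + s) := by
        refine add_le_add (hfl hR) ((norm_sub_le _ _).trans (add_le_add hmid (hfl hr)))
    _ = (m + 2) * s := by ring

/-- ball sums depend only on the almost everywhere class -/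
lemma S_congr {g h : V n → ℂ} (hgh : g =ᵐ[volume] h) (R : ℝ) (x : V n) : S g R x = S h R x := by
  unfold S IF
  refine integral_congr_ae ?_
  filter_upwards [hgh] with ξ hξ
  by_cases h1 : ξ ∈ {ξ : V n | ‖ξ‖ ≤ R}
  · rw [indicator_of_mem h1, indicator_of_mem h1, hξ]
  · rw [indicator_of_notMem h1, indicator_of_notMem h1]

/-- on a shell where the multiplier is constant -/
lemma D_mul {g h : V n → ℂ} {a b : ℝ} {c : ℂ}
    (hgh : ∀ᵐ ξ : V n, a < ‖ξ‖ → ‖ξ‖ ≤ b → h ξ = c * g ξ) (x : V n) :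
    D h a b x = c * D g a b x := by
  unfold D IF
  rw [← integral_const_mul]
  refine integral_congr_ae ?_
  filter_upwards [hgh] with ξ hξ
  by_cases h1 : ξ ∈ (shell a b : Set (V n))
  · rw [indicator_of_mem h1, indicator_of_mem h1, hξ h1.1 h1.2]
    ring
  · rw [indicator_of_notMem h1, indicator_of_notMem h1]
    ring

lemma tsum_shells_mono {r : ℕ → ℝ} (hr : Monotone r) (F : V n → ℝ≥0∞) :
    ∑' k : ℕ, ∫⁻ ξ in shell (r k) (r (k + 1)), F ξ ≤ ∫⁻ ξ, F ξ := by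
  rw [← lintegral_iUnion (fun k : ℕ => measurableSet_shell (r k) (r (k + 1)))]
  · exact setLIntegral_le_lintegral _ _
  · intro i j hij
    simp only [Function.onFun]
    rw [Set.disjoint_left]
    intro ξ hi hj
    obtain ⟨h1, h2⟩ := hi
    obtain ⟨h3, h4⟩ := hj
    rcases lt_or_gt_of_ne hij with h | h
    · have h7 : r (i + 1) ≤ r j := hr h
      linarith
    · have h7 : r (j + 1) ≤ r i := hr h
      linarith

/-- the pieces of `f` are square summable at almost every point -/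
lemma ae_pieces (g : Lp (α := V n) ℂ 2) {r : ℕ → ℝ} (hr : Monotone r) :
    ∀ᵐ x : V n, ∑' k : ℕ, ‖D (g : V n → ℂ) (r k) (r (k + 1)) x‖ₑ ^ 2 ≠ ⊤ := by
  have hg := locInt_Lp g
  have hm : ∀ k : ℕ, Measurable fun x : V n => ‖D (g : V n → ℂ) (r k) (r (k + 1)) x‖ₑ ^ 2 :=
    fun k => (measurable_D hg _ _).pow_const 2
  refine ae_ne_top_of_lintegral (Measurable.tsum hm).aemeasurable ?_
  refine ne_top_of_le_ne_top (lintegral_Lp_ne_top g) ?_
  simp_rw [← ENNReal.tsum_mul_left]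
  rw [lintegral_tsum (f := fun (k : ℕ) x => gw x * ‖D (g : V n → ℂ) (r k) (r (k + 1)) x‖ₑ ^ 2)
    fun k => (measurable_gw.mul (hm k)).aemeasurable]
  exact (ENNReal.tsum_le_tsum fun k => D_local_one hg _ _).trans (tsum_shells_mono hr _)

section Random

variable {Ω : Type} [MeasurableSpace Ω] {P : Measure Ω} [IsProbabilityMeasure P]

theorem ae_ae_series (g : Lp (α := V n) ℂ 2) {r : ℕ → ℝ} (hr : Monotone r)
    {ε : ℕ → Ω → ℝ} (hm : ∀ k, Measurable (ε k)) (hi : iIndepFun ε P)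
    (hb : ∀ k ω, |ε k ω| ≤ 1) (h0 : ∀ k, ∫ ω, ε k ω ∂P = 0) :
    ∀ᵐ ω ∂P, ∀ᵐ x : V n, ∃ c : ℂ, Tendsto (fun N => ∑ k ∈ Finset.range N,
      (ε k ω : ℂ) * D (g : V n → ℂ) (r k) (r (k + 1)) x) atTop (𝓝 c) := by
  have hg := locInt_Lp g
  have hmeas : MeasurableSet {p : Ω × V n | ∃ c : ℂ, Tendsto (fun N => ∑ k ∈ Finset.range N,
      (ε k p.1 : ℂ) * D (g : V n → ℂ) (r k) (r (k + 1)) p.2) atTop (𝓝 c)} := by
    refine measurableSet_exists_tendsto fun N => ?_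
    refine Finset.measurable_fun_sum _ fun k _ => ?_
    exact (Complex.measurable_ofReal.comp ((hm k).comp measurable_fst)).mul
      ((continuous_D hg _ _).measurable.comp measurable_snd)
  rw [Measure.ae_ae_comm hmeas]
  filter_upwards [ae_pieces g hr] with x hx
  refine kolmogorov_complex hm hi hb h0 _ ?_
  have h1 := ENNReal.summable_toReal hx
  refine h1.congr fun k => ?_
  rw [ENNReal.toReal_pow, toReal_enorm]

theorem random_shells (hn : 1 ≤ n) (f : Lp (α := V n) ℂ 2) {r : ℕ → ℝ} (hr : Monotone r)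
    (hr0 : r 0 = 0) (hrt : Tendsto r atTop atTop) (m : ℕ) (hrm : ∀ k, r (k + 1) ≤ r k + m)
    {ε : ℕ → Ω → ℝ} (hm : ∀ k, Measurable (ε k)) (hi : iIndepFun ε P)
    (hb : ∀ k ω, |ε k ω| ≤ 1) (h0 : ∀ k, ∫ ω, ε k ω ∂P = 0) :
    ∀ᵐ ω ∂P, ∀ F : Lp (α := V n) ℂ 2,
      (∀ᵐ ξ : V n, ∀ k : ℕ, r k < ‖ξ‖ → ‖ξ‖ ≤ r (k + 1) →
        (𝓕 F : Lp (α := V n) ℂ 2) ξ = (ε k ω : ℂ) * (𝓕 f : Lp (α := V n) ℂ 2) ξ) →
      ∀ᵐ x : V n, Tendsto (fun R : ℝ => S (𝓕 F : Lp (α := V n) ℂ 2) R x) atTop (𝓝 (F x)) := by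
  classical
  set g : Lp (α := V n) ℂ 2 volume := 𝓕 f with hgdef
  have hg := locInt_Lp g
  filter_upwards [ae_ae_series g hr hm hi hb h0] with ω hω F hF
  set h : Lp (α := V n) ℂ 2 volume := 𝓕 F with hhdef
  have hh := locInt_Lp h
  filter_upwards [hω, ae_W_ne_top hn g, ae_tendsto_dyadic F] with x ⟨c, hc⟩ hW hd
  -- the ball sums at the radii `r k`
  have hS0 : S (h : V n → ℂ) (r 0) x = 0 := by
    unfold S IF
    rw [hr0]
    have h1 : ∀ᵐ ξ : V n, ({ξ : V n | ‖ξ‖ ≤ 0}.indicator (h : V n → ℂ) ξ) * ex x ξ = 0 := by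
      have : Nonempty (Fin n) := ⟨⟨0, hn⟩⟩
      have h2 : ∀ᵐ ξ : V n, ξ ≠ 0 := by
        rw [ae_iff]
        simp
      filter_upwards [h2] with ξ hξ
      rw [indicator_of_notMem, zero_mul]
      simpa using hξ
    rw [integral_congr_ae h1]
    simp
  have hDk : ∀ k : ℕ, ∀ b : ℝ, r k ≤ b → b ≤ r (k + 1) → S (h : V n → ℂ) b x =
      S (h : V n → ℂ) (r k) x + (ε k ω : ℂ) * (S (g : V n → ℂ) b x - S (g : V n → ℂ) (r k) x) := by
    intro k b hb1 hb2
    rw [S_sub hh hb1 x, S_sub hg hb1 x, add_sub_cancel_left]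
    congr 1
    refine D_mul ?_ x
    filter_upwards [hF] with ξ hξ h1 h2
    exact hξ k h1 (h2.trans hb2)
  have hSk : ∀ k : ℕ, S (h : V n → ℂ) (r k) x = ∑ i ∈ Finset.range k,
      (ε i ω : ℂ) * D (g : V n → ℂ) (r i) (r (i + 1)) x := by
    intro k
    induction k with
    | zero => rw [hS0]; simp
    | succ k ih =>
        rw [Finset.sum_range_succ, ← ih, hDk k (r (k + 1)) (hr (Nat.le_succ k)) le_rfl,
          S_sub hg (hr (Nat.le_succ k)) x, add_sub_cancel_left]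
  -- the index of the shell of a radius
  have hex : ∀ R : ℝ, ∃ k : ℕ, R < r (k + 1) := by
    intro R
    obtain ⟨k, hk⟩ := (((tendsto_add_atTop_iff_nat 1).2 hrt).eventually_gt_atTop R).exists
    exact ⟨k, hk⟩
  set κ : ℝ → ℕ := fun R => Nat.find (hex R) with hκ
  have hκ1 : ∀ R, R < r (κ R + 1) := fun R => Nat.find_spec (hex R)
  have hκ2 : ∀ R, 0 ≤ R → r (κ R) ≤ R := by
    intro R hR
    rcases Nat.eq_zero_or_pos (κ R) with h1 | h1
    · rw [h1, hr0]; exact hR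
    · have h2 := Nat.find_min (hex R) (m := κ R - 1) (by
        show κ R - 1 < κ R
        omega)
      rw [Nat.sub_add_cancel h1] at h2
      exact not_lt.1 h2
  have hκt : Tendsto κ atTop atTop := by
    refine tendsto_atTop.2 fun b => ?_
    filter_upwards [eventually_ge_atTop (r b)] with R hR
    by_contra hcon
    push Not at hcon
    have h1 : r (κ R + 1) ≤ r b := hr hcon
    have h2 := hκ1 R
    linarith
  have hG := tendsto_sqrt_toReal hW
  have hosc : Tendsto (fun R : ℝ => ‖S (g : V n → ℂ) R x - S (g : V n → ℂ) (r (κ R)) x‖) atTop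
      (𝓝 0) := by
    rw [Metric.tendsto_atTop]
    intro δ hδ
    have hs : 0 < δ / (2 * (m + 2)) := by positivity
    obtain ⟨K, hK⟩ := Metric.tendsto_atTop.1 hG _ hs
    refine ⟨K + m, fun R hR => ?_⟩
    have hm0 : (0 : ℝ) ≤ m := Nat.cast_nonneg m
    have hK0 : (0 : ℝ) ≤ K := Nat.cast_nonneg K
    have h1 := hκ1 R
    have h2 := hκ2 R (by linarith)
    have h3 := hrm (κ R)
    rw [Real.dist_eq, sub_zero, abs_of_nonneg (norm_nonneg _)]
    have h4 := moves_far hg x hW hs.le K (fun k hk => by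
      have := hK k hk
      rw [Real.dist_eq, sub_zero, abs_of_nonneg (Real.sqrt_nonneg _)] at this
      exact this.le) (R := R) (r := r (κ R)) (by linarith) (by linarith) m (by
        rw [abs_of_nonneg (by linarith)]
        linarith)
    refine lt_of_le_of_lt h4 ?_
    have h5 : ((m : ℝ) + 2) * (δ / (2 * (m + 2))) = δ / 2 := by
      field_simp
    rw [h5]
    linarith
  have hlim : Tendsto (fun R : ℝ => S (h : V n → ℂ) R x) atTop (𝓝 c) := by
    rw [tendsto_iff_norm_sub_tendsto_zero]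
    have hc1 := (tendsto_iff_norm_sub_tendsto_zero.1 hc).comp hκt
    have hc2 := hosc.add hc1
    rw [add_zero] at hc2
    refine squeeze_zero' (Eventually.of_forall fun R => norm_nonneg _) ?_ hc2
    filter_upwards [eventually_ge_atTop (0 : ℝ)] with R hR
    rw [hDk (κ R) R (hκ2 R hR) (hκ1 R).le, hSk (κ R)]
    simp only [Function.comp]
    calc ‖(∑ i ∈ Finset.range (κ R), (ε i ω : ℂ) * D (g : V n → ℂ) (r i) (r (i + 1)) x) +
          (ε (κ R) ω : ℂ) * (S (g : V n → ℂ) R x - S (g : V n → ℂ) (r (κ R)) x) - c‖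
        = ‖(ε (κ R) ω : ℂ) * (S (g : V n → ℂ) R x - S (g : V n → ℂ) (r (κ R)) x) +
          ((∑ i ∈ Finset.range (κ R), (ε i ω : ℂ) * D (g : V n → ℂ) (r i) (r (i + 1)) x) -
            c)‖ := by congr 1; ring
      _ ≤ ‖(ε (κ R) ω : ℂ) * (S (g : V n → ℂ) R x - S (g : V n → ℂ) (r (κ R)) x)‖ +
          ‖(∑ i ∈ Finset.range (κ R), (ε i ω : ℂ) * D (g : V n → ℂ) (r i) (r (i + 1)) x) -
            c‖ := norm_add_le _ _
      _ ≤ _ := by
          gcongr
          rw [norm_mul, Complex.norm_real, Real.norm_eq_abs]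
          exact mul_le_of_le_one_left (norm_nonneg _) (hb _ _)
  have h2j : Tendsto (fun j : ℕ => (2 : ℝ) ^ j) atTop atTop :=
    tendsto_pow_atTop_atTop_of_one_lt (by norm_num)
  have huniq := tendsto_nhds_unique (hlim.comp h2j) hd
  rw [← huniq]
  exact hlim

end Random

end Pool.Agent.Q302.BS
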