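import Pool.Agent.Q302.BS.Radii

/-!
# Ball sums of Schwartz functions, dilations, Plancherel
-/

set_option autoImplicit false

open MeasureTheory Set Filter Topology SchwartzMap FourierTransform
open scoped ENNReal NNReal Real RealInnerProductSpace ComplexConjugate

namespace Pool.Agent.Q302.BS

variable {n : ℕ}

/-- the ball partial sum `S_R f (x) = ∫_{‖ξ‖ ≤ R} f^(ξ) e^(2πi⟨x,ξ⟩) dξ` -/
noncomputable def ballSum (f : 𝓢(EuclideanSpace ℝ (Fin n), ℂ)) (R : ℝ)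
    (x : EuclideanSpace ℝ (Fin n)) : ℂ :=
  ∫ ξ in {ξ : EuclideanSpace ℝ (Fin n) | ‖ξ‖ ≤ R},
    (𝓕 f : 𝓢(EuclideanSpace ℝ (Fin n), ℂ)) ξ * Complex.exp (2 * π * Complex.I * ⟪x, ξ⟫)

lemma ballSum_eq (f : 𝓢(V n, ℂ)) (R : ℝ) (x : V n) :
    ballSum f R x = S (⇑(𝓕 f : 𝓢(V n, ℂ))) R x := by
  unfold ballSum S IF
  rw [← integral_indicator (measurableSet_ball' R)]
  refine integral_congr_ae (Eventually.of_forall fun ξ => ?_)
  simp only
  by_cases h : ξ ∈ {ξ : V n | ‖ξ‖ ≤ R}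
  · rw [indicator_of_mem h, indicator_of_mem h]
    rfl
  · rw [indicator_of_notMem h, indicator_of_notMem h, zero_mul]

lemma locInt_schwartz (h : 𝓢(V n, ℂ)) : LocInt (⇑h) := fun R =>
  h.integrable.indicator (measurableSet_ball' R)

lemma lintegral_sq (h : 𝓢(V n, ℂ)) :
    ∫⁻ x, ‖h x‖ₑ ^ 2 = ENNReal.ofReal (∫ x, ‖h x‖ ^ 2) := by
  have hint : Integrable fun x => ‖h x‖ ^ 2 := (h.memLp 2 volume).integrable_norm_pow (by norm_num)
  rw [ofReal_integral_eq_lintegral_ofReal hint (Eventually.of_forall fun x => sq_nonneg _)]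
  refine lintegral_congr fun x => ?_
  rw [ENNReal.ofReal_pow (norm_nonneg _), ofReal_norm]

lemma plancherel (f : 𝓢(V n, ℂ)) : ∫⁻ ξ, ‖𝓕 f ξ‖ₑ ^ 2 = ∫⁻ x, ‖f x‖ₑ ^ 2 := by
  rw [lintegral_sq, lintegral_sq, integral_norm_sq_fourier]

lemma lint_smul {l : ℝ} (hl : 0 < l) (h : V n → ℝ≥0∞) :
    ∫⁻ x, h (l • x) = ENNReal.ofReal ((l ^ n)⁻¹) * ∫⁻ x, h x := by
  have h1 : ∫⁻ x, h (l • x) = ∫⁻ y, h y ∂(Measure.map (fun x : V n => l • x) volume) :=
    (lintegral_map_equiv h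
      (Homeomorph.smul (isUnit_iff_ne_zero.2 hl.ne').unit).toMeasurableEquiv).symm
  rw [h1, Measure.map_addHaar_smul volume hl.ne', lintegral_smul_measure]
  simp only [finrank_euclideanSpace, Fintype.card_fin, smul_eq_mul]
  rw [abs_of_nonneg (by positivity)]

/-- the dilation of a Schwartz function -/
noncomputable def dil (l : ℝ) (hl : l ≠ 0) (f : 𝓢(V n, ℂ)) : 𝓢(V n, ℂ) :=
  compCLMOfContinuousLinearEquiv ℂ
    (ContinuousLinearEquiv.smulLeft (R₁ := ℝ) (M₁ := V n) (Units.mk0 l hl)) f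

lemma dil_apply (l : ℝ) (hl : l ≠ 0) (f : 𝓢(V n, ℂ)) (x : V n) : dil l hl f x = f (l • x) := rfl

lemma fourier_dil {l : ℝ} (hl : 0 < l) (f : 𝓢(V n, ℂ)) (ξ : V n) :
    𝓕 (dil l hl.ne' f) ξ = ((l ^ n)⁻¹ : ℝ) • 𝓕 f (l⁻¹ • ξ) := by
  rw [fourier_coe, fourier_coe, Real.fourier_eq', Real.fourier_eq']
  have h1 := Measure.integral_comp_smul_of_nonneg (volume : Measure (V n))
    (fun y : V n => Complex.exp (((-2 * π * ⟪y, l⁻¹ • ξ⟫ : ℝ) : ℂ) * Complex.I) • f y) l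
    (hR := hl.le)
  rw [finrank_euclideanSpace, Fintype.card_fin] at h1
  rw [← h1]
  refine integral_congr_ae (Eventually.of_forall fun v => ?_)
  simp only [dil_apply]
  rw [inner_smul_left, inner_smul_right]
  simp only [conj_trivial]
  rw [mul_inv_cancel_left₀ hl.ne']

lemma ballSum_dil {l : ℝ} (hl : 0 < l) (f : 𝓢(V n, ℂ)) (R : ℝ) (x : V n) :
    ballSum (dil l hl.ne' f) R x = ballSum f (R / l) (l • x) := by
  unfold ballSum
  rw [← integral_indicator (measurableSet_ball' R), ← integral_indicator (measurableSet_ball' _)]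
  set H : V n → ℂ := {ξ : V n | ‖ξ‖ ≤ R / l}.indicator
    (fun ξ => 𝓕 f ξ * Complex.exp (2 * π * Complex.I * ⟪l • x, ξ⟫)) with hH
  have h1 := Measure.integral_comp_inv_smul_of_nonneg (volume : Measure (V n)) H hl.le
  rw [finrank_euclideanSpace, Fintype.card_fin] at h1
  have h2 : ∀ ξ : V n, {ξ : V n | ‖ξ‖ ≤ R}.indicator
      (fun ξ => 𝓕 (dil l hl.ne' f) ξ * Complex.exp (2 * π * Complex.I * ⟪x, ξ⟫)) ξ =
      ((l ^ n)⁻¹ : ℝ) • H (l⁻¹ • ξ) := by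
    intro ξ
    have h3 : l⁻¹ • ξ ∈ {ξ : V n | ‖ξ‖ ≤ R / l} ↔ ξ ∈ {ξ : V n | ‖ξ‖ ≤ R} := by
      simp only [mem_ofPred_eq]
      rw [norm_smul, norm_inv, Real.norm_of_nonneg hl.le, inv_mul_eq_div,
        div_le_div_iff_of_pos_right hl]
    by_cases h : ξ ∈ {ξ : V n | ‖ξ‖ ≤ R}
    · rw [indicator_of_mem h, hH, indicator_of_mem (h3.2 h), fourier_dil hl]
      rw [inner_smul_left, inner_smul_right]
      simp only [conj_trivial]
      rw [mul_inv_cancel_left₀ hl.ne', smul_mul_assoc]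
    · rw [indicator_of_notMem h, hH, indicator_of_notMem (fun h4 => h (h3.1 h4)), smul_zero]
  simp_rw [h2]
  rw [integral_smul, h1, smul_smul, inv_mul_cancel₀ (by positivity), one_smul]

/-- local estimate for all balls implies the global one -/
lemma global_of_local (C : ℝ≥0∞) (ρ : ℝ) (hρ : 0 < ρ)
    (h : ∀ f : 𝓢(V n, ℂ), ∫⁻ x in {x : V n | ‖x‖ ≤ ρ},
      (⨆ R : {R : ℝ // 0 < R}, ‖ballSum f R x‖ₑ) ^ 2 ≤ C * ∫⁻ x, ‖f x‖ₑ ^ 2)
    (f : 𝓢(V n, ℂ)) :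
    ∫⁻ x, (⨆ R : {R : ℝ // 0 < R}, ‖ballSum f R x‖ₑ) ^ 2 ≤ C * ∫⁻ x, ‖f x‖ₑ ^ 2 := by
  set M : V n → ℝ≥0∞ := fun x => (⨆ R : {R : ℝ // 0 < R}, ‖ballSum f R x‖ₑ) ^ 2 with hM
  have hball : ∀ l : ℝ, 0 < l → ∫⁻ x in {x : V n | ‖x‖ ≤ l * ρ}, M x ≤
      C * ∫⁻ x, ‖f x‖ₑ ^ 2 := by
    intro l hl
    have h1 := h (dil l hl.ne' f)
    have h2 : ∀ x : V n, (⨆ R : {R : ℝ // 0 < R}, ‖ballSum (dil l hl.ne' f) R x‖ₑ) ^ 2 =
        M (l • x) := by
      intro x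
      simp only [hM]
      congr 1
      refine le_antisymm (iSup_le fun R => ?_) (iSup_le fun R => ?_)
      · rw [ballSum_dil hl]
        exact le_iSup (fun R : {R : ℝ // 0 < R} => ‖ballSum f R (l • x)‖ₑ)
          ⟨R / l, div_pos R.2 hl⟩
      · have h3 : ballSum f (R : ℝ) (l • x) = ballSum (dil l hl.ne' f) (R * l) x := by
          rw [ballSum_dil hl, mul_div_cancel_right₀ _ hl.ne']
        rw [h3]
        exact le_iSup (fun R : {R : ℝ // 0 < R} => ‖ballSum (dil l hl.ne' f) R x‖ₑ)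
          ⟨R * l, mul_pos R.2 hl⟩
    simp_rw [h2] at h1
    have h4 : ∫⁻ x, ‖dil l hl.ne' f x‖ₑ ^ 2 =
        ENNReal.ofReal ((l ^ n)⁻¹) * ∫⁻ x, ‖f x‖ₑ ^ 2 := by
      simp_rw [dil_apply]
      exact lint_smul hl fun x => ‖f x‖ₑ ^ 2
    have h5 : ∫⁻ x in {x : V n | ‖x‖ ≤ ρ}, M (l • x) =
        ENNReal.ofReal ((l ^ n)⁻¹) * ∫⁻ x in {x : V n | ‖x‖ ≤ l * ρ}, M x := by
      rw [← lintegral_indicator (measurableSet_ball' ρ),
        ← lintegral_indicator (measurableSet_ball' (l * ρ)), ← lint_smul hl]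
      refine lintegral_congr fun x => ?_
      have h6 : l • x ∈ {x : V n | ‖x‖ ≤ l * ρ} ↔ x ∈ {x : V n | ‖x‖ ≤ ρ} := by
        simp only [mem_ofPred_eq]
        rw [norm_smul, Real.norm_of_nonneg hl.le]
        exact mul_le_mul_iff_right₀ hl
      by_cases hx : x ∈ {x : V n | ‖x‖ ≤ ρ}
      · rw [indicator_of_mem hx, indicator_of_mem (h6.2 hx)]
      · rw [indicator_of_notMem hx, indicator_of_notMem (fun h7 => hx (h6.1 h7))]
    rw [h4, h5] at h1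
    have h7 : ENNReal.ofReal ((l ^ n)⁻¹) ≠ 0 := by
      rw [Ne, ENNReal.ofReal_eq_zero, not_le]
      positivity
    have h8 : ENNReal.ofReal ((l ^ n)⁻¹) * ∫⁻ x in {x : V n | ‖x‖ ≤ l * ρ}, M x ≤
        ENNReal.ofReal ((l ^ n)⁻¹) * (C * ∫⁻ x, ‖f x‖ₑ ^ 2) := by
      rw [mul_left_comm]
      exact h1
    exact (ENNReal.mul_le_mul_iff_right h7 ENNReal.ofReal_ne_top).1 h8
  have hU : (⋃ m : ℕ, {x : V n | ‖x‖ ≤ ((m : ℝ) + 1) * ρ}) = univ := by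
    rw [eq_univ_iff_forall]
    intro x
    rw [mem_iUnion]
    obtain ⟨m, hm⟩ := exists_nat_ge (‖x‖ / ρ)
    refine ⟨m, ?_⟩
    rw [div_le_iff₀ hρ] at hm
    simp only [mem_ofPred_eq]
    nlinarith
  rw [← setLIntegral_univ, ← hU, setLIntegral_iUnion_of_directed]
  · exact iSup_le fun m => hball _ (by positivity)
  · refine (monotone_nat_of_le_succ fun m => ?_).directed_le
    intro x hx
    simp only [mem_ofPred_eq] at hx ⊢
    push_cast
    nlinarith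

end Pool.Agent.Q302.BS
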