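import Mathlib

/-!
# Gaussian mass of thin spherical shells

The Gaussian mass of the shell `a ≤ ‖η‖ ≤ b` around any centre is at most `2 n^(3/2) (b - a)`.
-/

set_option autoImplicit false

open MeasureTheory Set Filter Topology
open scoped ENNReal NNReal Real

namespace Pool.Agent.Q302.BS

/-- Euclidean space -/
abbrev V (n : ℕ) := EuclideanSpace ℝ (Fin n)

/-- the Gaussian weight -/
noncomputable def gw {n : ℕ} (x : V n) : ℝ≥0∞ := ENNReal.ofReal (Real.exp (-π * ‖x‖ ^ 2))

lemma measurable_gw {n : ℕ} : Measurable (gw (n := n)) := by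
  unfold gw
  fun_prop

lemma gw_neg {n : ℕ} (x : V n) : gw (-x) = gw x := by
  unfold gw; rw [norm_neg]

lemma integrable_gauss {n : ℕ} : Integrable fun x : V n => Real.exp (-π * ‖x‖ ^ 2) := by
  by_contra h
  have h1 := GaussianFourier.integral_rexp_neg_mul_sq_norm (V := V n) Real.pi_pos
  rw [integral_undef h, div_self Real.pi_pos.ne', Real.one_rpow] at h1
  exact zero_ne_one h1

lemma lintegral_gw {n : ℕ} : ∫⁻ x : V n, gw x = 1 := by
  unfold gw
  rw [← ofReal_integral_eq_lintegral_ofReal integrable_gauss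
    (Eventually.of_forall fun x => (Real.exp_pos _).le),
    GaussianFourier.integral_rexp_neg_mul_sq_norm Real.pi_pos, div_self Real.pi_pos.ne',
    Real.one_rpow, ENNReal.ofReal_one]

lemma lintegral_gw_sub {n : ℕ} (c : V n) : ∫⁻ x : V n, gw (c - x) = 1 := by
  rw [lintegral_sub_left_eq_self (fun x => gw x) c, lintegral_gw]

/-- a set of reals whose positive points, and whose negative points, are at distance at most `L` -/
lemma volume_two_sided (D : Set ℝ) (L : ℝ)
    (h1 : ∀ s ∈ D, ∀ t ∈ D, 0 ≤ s → s ≤ t → t - s ≤ L)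
    (h2 : ∀ s ∈ D, ∀ t ∈ D, t ≤ 0 → s ≤ t → t - s ≤ L) :
    volume D ≤ ENNReal.ofReal (2 * L) := by
  have hsub : D ⊆ (D ∩ {s | 0 ≤ s}) ∪ (D ∩ {s | s ≤ 0}) := by
    intro s hs
    rcases le_total 0 s with h | h
    · exact Or.inl ⟨hs, h⟩
    · exact Or.inr ⟨hs, h⟩
  by_cases hL : 0 ≤ L
  · have hA : volume (D ∩ {s | 0 ≤ s}) ≤ ENNReal.ofReal L := by
      refine (Real.volume_le_diam _).trans (Metric.ediam_le fun s hs t ht => ?_)
      rw [edist_dist, Real.dist_eq]
      refine ENNReal.ofReal_le_ofReal ?_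
      rcases le_total s t with h | h
      · rw [abs_sub_comm, abs_of_nonneg (by linarith)]
        exact h1 s hs.1 t ht.1 hs.2 h
      · rw [abs_of_nonneg (by linarith)]
        exact h1 t ht.1 s hs.1 ht.2 h
    have hB : volume (D ∩ {s | s ≤ 0}) ≤ ENNReal.ofReal L := by
      refine (Real.volume_le_diam _).trans (Metric.ediam_le fun s hs t ht => ?_)
      rw [edist_dist, Real.dist_eq]
      refine ENNReal.ofReal_le_ofReal ?_
      rcases le_total s t with h | h
      · rw [abs_sub_comm, abs_of_nonneg (by linarith)]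
        exact h2 s hs.1 t ht.1 ht.2 h
      · rw [abs_of_nonneg (by linarith)]
        exact h2 t ht.1 s hs.1 hs.2 h
    calc volume D ≤ volume ((D ∩ {s | 0 ≤ s}) ∪ (D ∩ {s | s ≤ 0})) := measure_mono hsub
      _ ≤ volume (D ∩ {s | 0 ≤ s}) + volume (D ∩ {s | s ≤ 0}) := measure_union_le _ _
      _ ≤ ENNReal.ofReal L + ENNReal.ofReal L := add_le_add hA hB
      _ = ENNReal.ofReal (2 * L) := by rw [← ENNReal.ofReal_add hL hL, two_mul]
  · have hD : D = ∅ := by
      rw [Set.eq_empty_iff_forall_notMem]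
      intro s hs
      rcases le_total 0 s with h | h
      · have := h1 s hs s hs h le_rfl
        linarith
      · have := h2 s hs s hs h le_rfl
        linarith
    rw [hD, measure_empty]
    exact bot_le

lemma lintegral_insertNth {m : ℕ} (i : Fin (m + 1)) (F : V (m + 1) → ℝ≥0∞) (hF : Measurable F) :
    ∫⁻ x, F x = ∫⁻ y : Fin m → ℝ, ∫⁻ t : ℝ, F (WithLp.toLp 2 (i.insertNth t y)) := by
  rw [← (PiLp.volume_preserving_toLp (Fin (m + 1))).lintegral_comp hF]
  have h := (volume_preserving_piFinSuccAbove (fun _ : Fin (m + 1) => ℝ) i).symm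
  rw [← h.lintegral_comp (f := fun w : Fin (m + 1) → ℝ => F (WithLp.toLp 2 w))
    (hF.comp (by fun_prop))]
  have hm : Measurable fun z : ℝ × (Fin m → ℝ) =>
      F (WithLp.toLp 2 ((MeasurableEquiv.piFinSuccAbove (fun _ : Fin (m + 1) => ℝ) i).symm z)) :=
    hF.comp ((by fun_prop : Measurable fun w : Fin (m + 1) → ℝ => WithLp.toLp 2 w).comp
      (MeasurableEquiv.measurable _))
  rw [Measure.volume_eq_prod, lintegral_prod_symm' _ hm]
  rfl

lemma norm_insertNth {m : ℕ} (i : Fin (m + 1)) (t : ℝ) (y : Fin m → ℝ) :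
    ‖(WithLp.toLp 2 (i.insertNth t y) : V (m + 1))‖ ^ 2 =
      t ^ 2 + ‖(WithLp.toLp 2 y : V m)‖ ^ 2 := by
  rw [EuclideanSpace.norm_sq_eq, EuclideanSpace.norm_sq_eq, Fin.sum_univ_succAbove _ i]
  simp

/-- the part of the shell where the coordinate `i` is large -/
def sector {n : ℕ} (a b : ℝ) (i : Fin n) : Set (V n) :=
  {η | a ≤ ‖η‖ ∧ ‖η‖ ≤ b ∧ ‖η‖ ^ 2 ≤ n * (η i) ^ 2}

lemma measurableSet_sector {n : ℕ} (a b : ℝ) (i : Fin n) : MeasurableSet (sector a b i) := by
  have h : sector a b i = {η : V n | a ≤ ‖η‖} ∩ ({η : V n | ‖η‖ ≤ b} ∩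
      {η : V n | ‖η‖ ^ 2 ≤ n * (η i) ^ 2}) := rfl
  rw [h]
  refine (IsClosed.measurableSet ?_).inter ((IsClosed.measurableSet ?_).inter
    (IsClosed.measurableSet ?_))
  · exact isClosed_le continuous_const continuous_norm
  · exact isClosed_le continuous_norm continuous_const
  · exact isClosed_le (by fun_prop) (by fun_prop)

lemma sector_bound {m : ℕ} {a b : ℝ} (ha : 0 ≤ a) (hab : a ≤ b) (i : Fin (m + 1))
    (ξ : V (m + 1)) :
    ∫⁻ η in sector a b i, gw (ξ - η) ≤
      ENNReal.ofReal (2 * (Real.sqrt (m + 1 : ℕ) * (b - a))) := by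
  rw [← lintegral_indicator (measurableSet_sector a b i),
    lintegral_insertNth i (fun η => (sector a b i).indicator (fun η => gw (ξ - η)) η)
      ((measurable_gw.comp (measurable_const.sub measurable_id)).indicator
      (measurableSet_sector a b i))]
  set c : V m := WithLp.toLp 2 (fun j => ξ (i.succAbove j)) with hc
  set s : ℝ := Real.sqrt (m + 1 : ℕ) with hs
  have hs0 : 0 ≤ s := Real.sqrt_nonneg _
  have hs2 : s ^ 2 = (m + 1 : ℕ) := Real.sq_sqrt (Nat.cast_nonneg _)
  have hin : ∀ y : Fin m → ℝ, (∫⁻ t : ℝ, (sector a b i).indicator (fun η => gw (ξ - η))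
      (WithLp.toLp 2 (i.insertNth t y))) ≤
      gw (c - WithLp.toLp 2 y) * ENNReal.ofReal (2 * (s * (b - a))) := by
    intro y
    set D : Set ℝ := {t | (WithLp.toLp 2 (i.insertNth t y) : V (m + 1)) ∈ sector a b i} with hD
    have hDm : MeasurableSet D := by
      have : Measurable fun t : ℝ => (WithLp.toLp 2 (i.insertNth t y) : V (m + 1)) := by
        refine (by fun_prop : Measurable fun w : Fin (m + 1) → ℝ =>
          (WithLp.toLp 2 w : V (m + 1))).comp ?_
        rw [measurable_pi_iff]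
        intro j
        rcases Fin.eq_self_or_eq_succAbove i j with h | ⟨k, h⟩
        · subst h; simpa using measurable_id'
        · subst h; simp
      exact this (measurableSet_sector a b i)
    have hle : ∀ t : ℝ, (sector a b i).indicator (fun η => gw (ξ - η))
        (WithLp.toLp 2 (i.insertNth t y)) ≤
        D.indicator (fun _ => gw (c - WithLp.toLp 2 y)) t := by
      intro t
      by_cases ht : t ∈ D
      · rw [indicator_of_mem ht, indicator_of_mem (show _ ∈ sector a b i from ht)]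
        unfold gw
        refine ENNReal.ofReal_le_ofReal (Real.exp_le_exp.2 ?_)
        have h1 : ‖ξ - (WithLp.toLp 2 (i.insertNth t y) : V (m + 1))‖ ^ 2 =
            (ξ i - t) ^ 2 + ‖c - WithLp.toLp 2 y‖ ^ 2 := by
          rw [EuclideanSpace.norm_sq_eq, EuclideanSpace.norm_sq_eq, Fin.sum_univ_succAbove _ i]
          simp [hc]
        rw [h1]
        nlinarith [Real.pi_pos, sq_nonneg (ξ i - t), mul_nonneg Real.pi_pos.le
          (sq_nonneg (ξ i - t))]
      · rw [indicator_of_notMem (show _ ∉ sector a b i from ht)]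
        exact bot_le
    refine (lintegral_mono hle).trans ?_
    rw [lintegral_indicator hDm, setLIntegral_const]
    refine mul_le_mul_right ?_ _
    set q : ℝ := ‖(WithLp.toLp 2 y : V m)‖ ^ 2 with hq
    have hq0 : 0 ≤ q := sq_nonneg _
    -- the radius
    have hr : ∀ t, ‖(WithLp.toLp 2 (i.insertNth t y) : V (m + 1))‖ ^ 2 = t ^ 2 + q :=
      fun t => norm_insertNth i t y
    have key : ∀ u v : ℝ, u ∈ D → v ∈ D → 0 ≤ |u| → |u| ≤ |v| → |v| - |u| ≤ s * (b - a) := by
      intro u v hu hv _ huv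
      obtain ⟨hu1, hu2, hu3⟩ := hu
      obtain ⟨hv1, hv2, hv3⟩ := hv
      set ru := ‖(WithLp.toLp 2 (i.insertNth u y) : V (m + 1))‖ with hru
      set rv := ‖(WithLp.toLp 2 (i.insertNth v y) : V (m + 1))‖ with hrv
      have hru2 : ru ^ 2 = u ^ 2 + q := hr u
      have hrv2 : rv ^ 2 = v ^ 2 + q := hr v
      have hru0 : 0 ≤ ru := norm_nonneg _
      have hrv0 : 0 ≤ rv := norm_nonneg _
      have hu3' : ru ^ 2 ≤ (s * |u|) ^ 2 := by
        rw [mul_pow, hs2, sq_abs]
        simpa using hu3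
      have hv3' : rv ^ 2 ≤ (s * |v|) ^ 2 := by
        rw [mul_pow, hs2, sq_abs]
        simpa using hv3
      have hu4 : ru ≤ s * |u| := by
        exact abs_le_of_sq_le_sq' hu3' (by positivity) |>.2
      have hv4 : rv ≤ s * |v| := by
        exact abs_le_of_sq_le_sq' hv3' (by positivity) |>.2
      have hdiff : |v| ^ 2 - |u| ^ 2 = (rv - ru) * (rv + ru) := by
        rw [sq_abs, sq_abs]; nlinarith
      by_cases h0 : |v| + |u| = 0
      · have h1 : |v| = 0 := by linarith [abs_nonneg v, abs_nonneg u]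
        have h2 : |u| = 0 := by linarith [abs_nonneg v, abs_nonneg u]
        rw [h1, h2, sub_zero]
        exact mul_nonneg hs0 (by linarith)
      · have hpos : 0 < |v| + |u| :=
          lt_of_le_of_ne (by positivity) (Ne.symm h0)
        have h5 : (|v| - |u|) * (|v| + |u|) = (rv - ru) * (rv + ru) := by
          rw [← hdiff]; ring
        have hrr : ru ≤ rv := by
          have : 0 ≤ (rv - ru) * (rv + ru) := by
            rw [← h5]; exact mul_nonneg (by linarith) hpos.le
          by_contra hcon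
          push Not at hcon
          have h6 : 0 < rv + ru := by linarith
          nlinarith
        have h7 : (rv - ru) * (rv + ru) ≤ (b - a) * (s * (|v| + |u|)) := by
          refine mul_le_mul (by linarith) (by linarith) (by linarith) (by linarith)
        have h8 : (|v| - |u|) * (|v| + |u|) ≤ (s * (b - a)) * (|v| + |u|) := by
          rw [h5]; linarith
        exact le_of_mul_le_mul_right h8 hpos
    refine volume_two_sided D (s * (b - a)) ?_ ?_
    · intro u hu v hv h0 huv
      have := key u v hu hv (abs_nonneg _) (by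
        rw [abs_of_nonneg h0, abs_of_nonneg (h0.trans huv)]; exact huv)
      rwa [abs_of_nonneg h0, abs_of_nonneg (h0.trans huv)] at this
    · intro u hu v hv h0 huv
      have := key v u hv hu (abs_nonneg _) (by
        rw [abs_of_nonpos h0, abs_of_nonpos (huv.trans h0)]; linarith)
      rw [abs_of_nonpos h0, abs_of_nonpos (huv.trans h0)] at this
      linarith
  refine (lintegral_mono hin).trans ?_
  rw [lintegral_mul_const _ (by
    exact measurable_gw.comp (measurable_const.sub (by fun_prop)))]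
  have h1 : ∫⁻ y : Fin m → ℝ, gw (c - WithLp.toLp 2 y) = 1 := by
    rw [(PiLp.volume_preserving_toLp (Fin m)).lintegral_comp
      (f := fun z : V m => gw (c - z)) (measurable_gw.comp (by fun_prop)), lintegral_gw_sub]
  rw [h1, one_mul]

/-- **The Gaussian mass of a thin shell.** -/
theorem shell_bound {n : ℕ} (hn : 1 ≤ n) {a b : ℝ} (ha : 0 ≤ a) (hab : a ≤ b) (ξ : V n) :
    ∫⁻ η in {η : V n | a ≤ ‖η‖ ∧ ‖η‖ ≤ b}, gw (ξ - η) ≤
      ENNReal.ofReal (2 * n * Real.sqrt n * (b - a)) := by
  obtain ⟨m, rfl⟩ : ∃ m, n = m + 1 := ⟨n - 1, by omega⟩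
  have hsub : {η : V (m + 1) | a ≤ ‖η‖ ∧ ‖η‖ ≤ b} ⊆ ⋃ i, sector a b i := by
    intro η hη
    by_contra hcon
    rw [mem_iUnion] at hcon
    push Not at hcon
    have h1 : ∀ i, ((m + 1 : ℕ) : ℝ) * (η i) ^ 2 < ‖η‖ ^ 2 := by
      intro i
      by_contra h
      push Not at h
      exact hcon i ⟨hη.1, hη.2, h⟩
    have h2 : ∑ i, ((m + 1 : ℕ) : ℝ) * (η i) ^ 2 < ∑ _i : Fin (m + 1), ‖η‖ ^ 2 :=
      Finset.sum_lt_sum_of_nonempty ⟨0, Finset.mem_univ _⟩ fun i _ => h1 i
    rw [← Finset.mul_sum, Finset.sum_const, Finset.card_univ, Fintype.card_fin, nsmul_eq_mul,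
      EuclideanSpace.norm_sq_eq] at h2
    simp at h2
  calc ∫⁻ η in {η : V (m + 1) | a ≤ ‖η‖ ∧ ‖η‖ ≤ b}, gw (ξ - η)
      ≤ ∫⁻ η in ⋃ i, sector a b i, gw (ξ - η) := lintegral_mono_set hsub
    _ ≤ ∑' i, ∫⁻ η in sector a b i, gw (ξ - η) := lintegral_iUnion_le _ _
    _ ≤ ∑' _i : Fin (m + 1), ENNReal.ofReal (2 * (Real.sqrt (m + 1 : ℕ) * (b - a))) :=
        ENNReal.tsum_le_tsum fun i => sector_bound ha hab i ξ
    _ = ENNReal.ofReal (2 * (m + 1 : ℕ) * Real.sqrt (m + 1 : ℕ) * (b - a)) := by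
        rw [tsum_fintype, Finset.sum_const, Finset.card_univ, Fintype.card_fin, nsmul_eq_mul,
          ← ENNReal.ofReal_natCast, ← ENNReal.ofReal_mul (Nat.cast_nonneg _)]
        congr 1
        ring

end Pool.Agent.Q302.BS
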