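import Pool.Agent.Q302.BS.Block

/-!
# Almost everywhere convergence along sets of radii, by the number of unit windows they meet
-/

set_option autoImplicit false

open MeasureTheory Set Filter Topology SchwartzMap FourierTransform
open scoped ENNReal NNReal Real RealInnerProductSpace ComplexConjugate

namespace Pool.Agent.Q302.BS

variable {n : ℕ}

lemma tendsto_sqrt_toReal {F : ℕ → ℝ≥0∞} (h : ∑' j, F j ≠ ⊤) :
    Tendsto (fun j => Real.sqrt (F j).toReal) atTop (𝓝 0) := by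
  have h1 := ENNReal.tendsto_atTop_zero_of_tsum_ne_top h
  have h2 := (ENNReal.tendsto_toReal ENNReal.zero_ne_top).comp h1
  rw [ENNReal.toReal_zero] at h2
  have h4 := h2.sqrt
  simp only [Real.sqrt_zero] at h4
  exact h4

lemma ne_top_of_tsum {F : ℕ → ℝ≥0∞} (h : ∑' j, F j ≠ ⊤) (j : ℕ) : F j ≠ ⊤ :=
  ne_top_of_le_ne_top h (ENNReal.le_tsum j)

lemma ae_W_ne_top (hn : 1 ≤ n) (g : Lp (α := V n) ℂ 2) : ∀ᵐ x : V n, W (g : V n → ℂ) x ≠ ⊤ := by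
  refine ae_ne_top_of_lintegral (measurable_W (locInt_Lp g)).aemeasurable ?_
  exact ne_top_of_le_ne_top (ENNReal.mul_ne_top ENNReal.ofReal_ne_top (lintegral_Lp_ne_top g))
    (lintegral_W hn (locInt_Lp g))

theorem unit_windows (hn : 1 ≤ n) (f : Lp (α := V n) ℂ 2) (E : Set ℝ) (N : ℕ → ℕ)
    (hN : ∀ j : ℕ, {k : ℕ | 2 ^ j ≤ k ∧ k < 2 ^ (j + 1) ∧
      (Icc (k : ℝ) (k + 1) ∩ E).Nonempty}.ncard ≤ N j)
    (hf : ∑' j : ℕ, ((Nat.log 2 (N j) : ℝ≥0∞) + 1) ^ 2 *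
      ∫⁻ ξ in shell (2 ^ j) (2 ^ (j + 1)), ‖(𝓕 f : Lp (α := V n) ℂ 2) ξ‖ₑ ^ 2 ≠ ⊤) :
    ∀ᵐ x : V n, Tendsto (fun R : ℝ => S (𝓕 f : Lp (α := V n) ℂ 2) R x) (atTop ⊓ 𝓟 E)
      (𝓝 (f x)) := by
  classical
  set g : Lp (α := V n) ℂ 2 volume := 𝓕 f with hg
  have hgL := locInt_Lp g
  have hfinK : ∀ j : ℕ, {k : ℕ | 2 ^ j ≤ k ∧ k < 2 ^ (j + 1) ∧
      (Icc (k : ℝ) (k + 1) ∩ E).Nonempty}.Finite := fun j =>
    (Set.finite_Iio (2 ^ (j + 1))).subset fun k hk => hk.2.1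
  have hA : ∀ j : ℕ, ∃ a : ℕ → ℕ, Monotone a ∧ a 0 = 2 ^ j ∧ (∀ i, a i ≤ 2 ^ (j + 1)) ∧
      ∀ k : ℕ, 2 ^ j ≤ k → k < 2 ^ (j + 1) → (Icc (k : ℝ) (k + 1) ∩ E).Nonempty →
        ∃ i ≤ N j, a i = k := by
    intro j
    obtain ⟨a, h1, h2, h3, h4⟩ := exists_enum (hfinK j).toFinset (2 ^ j) (2 ^ (j + 1))
      (Nat.pow_le_pow_right (by norm_num) (Nat.le_succ j)) (fun k hk => by
        rw [Set.Finite.mem_toFinset] at hk
        exact ⟨hk.1, hk.2.1.le⟩)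
    refine ⟨a, h1, h2, h3, fun k k1 k2 k3 => ?_⟩
    obtain ⟨i, hi, hik⟩ := h4 k (by rw [Set.Finite.mem_toFinset]; exact ⟨k1, k2, k3⟩)
    refine ⟨i, hi.trans ?_, hik⟩
    rw [← Set.ncard_eq_toFinset_card _ (hfinK j)]
    exact hN j
  choose a ha0 ha1 ha2 ha3 using hA
  set m : ℕ → ℕ := fun j => Nat.log 2 (N j) + 1 with hm
  have hmono : ∀ j, Monotone fun i => ((a j i : ℕ) : ℝ) := fun j i i' h =>
    Nat.cast_le.2 (ha0 j h)
  -- the block majorants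
  set F : ℕ → V n → ℝ≥0∞ := fun j => Bk g (fun i => (a j i : ℝ)) (m j) with hF
  have hFm : ∀ j, Measurable (F j) := fun j => measurable_Bk hgL _ _
  have hFsum : ∀ᵐ x : V n, ∑' j, F j x ≠ ⊤ := by
    refine ae_ne_top_of_lintegral (Measurable.tsum fun j => hFm j).aemeasurable ?_
    refine ne_top_of_le_ne_top (ENNReal.mul_ne_top (show (4 : ℝ≥0∞) ≠ ⊤ by norm_num) hf) ?_
    simp_rw [← ENNReal.tsum_mul_left]
    rw [lintegral_tsum (f := fun (j : ℕ) x => gw x * F j x)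
      fun j => (measurable_gw.mul (hFm j)).aemeasurable]
    refine ENNReal.tsum_le_tsum fun j => ?_
    refine (lintegral_Bk hgL (hmono j) (m j)).trans ?_
    rw [← mul_assoc]
    refine mul_le_mul' ?_ ?_
    · have h4 : (4 : ℝ≥0∞) = 2 ^ 2 := by norm_num
      rw [h4, ← mul_pow]
      refine pow_le_pow_left' ?_ 2
      simp only [hm]
      have : ((Nat.log 2 (N j) + 1 + 1 : ℕ) : ℝ≥0∞) ≤ ((2 * (Nat.log 2 (N j) + 1) : ℕ) : ℝ≥0∞) := by
        exact_mod_cast (by omega : Nat.log 2 (N j) + 1 + 1 ≤ 2 * (Nat.log 2 (N j) + 1))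
      push_cast at this ⊢
      exact this
    · refine lintegral_mono_set ?_
      intro ξ hξ
      obtain ⟨h1, h2⟩ := hξ
      refine ⟨?_, ?_⟩
      · have h3 : ((a j 0 : ℕ) : ℝ) = 2 ^ j := by rw [ha1]; push_cast; ring
        rwa [← h3]
      · refine h2.trans ?_
        have h3 : ((a j (2 ^ m j) : ℕ) : ℝ) ≤ ((2 ^ (j + 1) : ℕ) : ℝ) := by
          exact_mod_cast ha2 j _
        push_cast at h3
        exact h3
  filter_upwards [ae_tendsto_dyadic f, ae_W_ne_top hn g, hFsum] with x hx1 hx2 hx3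
  have hG := tendsto_sqrt_toReal hx2
  have hFt := tendsto_sqrt_toReal hx3
  have hfl : Tendsto (fun R : ℝ => ⌊R⌋₊) (atTop ⊓ 𝓟 E) atTop :=
    (tendsto_nat_floor_atTop).mono_left inf_le_left
  have hlog0 : Tendsto (fun k : ℕ => Nat.log 2 k) atTop atTop := by
    refine tendsto_atTop.2 fun b => ?_
    filter_upwards [eventually_ge_atTop (2 ^ b)] with k hk
    exact Nat.le_log_of_pow_le (by norm_num) hk
  have hlog : Tendsto (fun R : ℝ => Nat.log 2 ⌊R⌋₊) (atTop ⊓ 𝓟 E) atTop := hlog0.comp hfl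
  rw [tendsto_iff_norm_sub_tendsto_zero]
  have hx1' := tendsto_iff_norm_sub_tendsto_zero.1 hx1
  have hlim : Tendsto (fun R : ℝ => Real.sqrt (G g (⌊R⌋₊ : ℕ) x).toReal +
      Real.sqrt (F (Nat.log 2 ⌊R⌋₊) x).toReal +
      ‖S g (2 ^ (Nat.log 2 ⌊R⌋₊)) x - f x‖) (atTop ⊓ 𝓟 E) (𝓝 0) := by
    have := ((hG.comp hfl).add (hFt.comp hlog)).add (hx1'.comp hlog)
    rw [add_zero, add_zero] at this
    exact this
  refine squeeze_zero' (Eventually.of_forall fun R => norm_nonneg _) ?_ hlim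
  have hE : ∀ᶠ R : ℝ in atTop ⊓ 𝓟 E, R ∈ E := eventually_inf_principal.2
    (Eventually.of_forall fun R h => h)
  have h1R : ∀ᶠ R : ℝ in atTop ⊓ 𝓟 E, 1 ≤ R :=
    (eventually_ge_atTop (1 : ℝ)).filter_mono inf_le_left
  filter_upwards [hE, h1R] with R hRE hR1
  have hR0 : 0 ≤ R := by linarith
  set k := ⌊R⌋₊ with hk
  have hk1 : 1 ≤ k := Nat.le_floor (by exact_mod_cast hR1)
  set j := Nat.log 2 k with hj
  have hjk : 2 ^ j ≤ k := Nat.pow_log_le_self 2 (by omega)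
  have hkj : k < 2 ^ (j + 1) := Nat.lt_pow_succ_log_self (by norm_num) k
  obtain ⟨i, hi, hik⟩ := ha3 j k hjk hkj ⟨R, ⟨Nat.floor_le hR0, (Nat.lt_floor_add_one R).le⟩, hRE⟩
  have hi2 : i ≤ 2 ^ m j := hi.trans (Nat.lt_pow_succ_log_self (by norm_num) (N j)).le
  have e1 : ‖S g R x - S g (k : ℝ) x‖ ≤ Real.sqrt (G g (k : ℕ) x).toReal := by
    refine norm_le_sqrt (ne_top_of_tsum hx2 k) ?_
    exact window_bound hgL (Nat.cast_nonneg k) (Nat.floor_le hR0) (Nat.lt_floor_add_one R).le x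
  have e2 : ‖S g (k : ℝ) x - S g (2 ^ j) x‖ ≤ Real.sqrt (F j x).toReal := by
    refine norm_le_sqrt (ne_top_of_tsum hx3 j) ?_
    have h := Bk_bound hgL (hmono j) (m j) i hi2 x
    simp only [hik, ha1] at h
    push_cast at h
    exact h
  calc ‖S g R x - f x‖ = ‖(S g R x - S g (k : ℝ) x) + (S g (k : ℝ) x - S g (2 ^ j) x) +
        (S g (2 ^ j) x - f x)‖ := by congr 1; ring
    _ ≤ ‖(S g R x - S g (k : ℝ) x) + (S g (k : ℝ) x - S g (2 ^ j) x)‖ +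
        ‖S g (2 ^ j) x - f x‖ := norm_add_le _ _
    _ ≤ (‖S g R x - S g (k : ℝ) x‖ + ‖S g (k : ℝ) x - S g (2 ^ j) x‖) +
        ‖S g (2 ^ j) x - f x‖ := by gcongr; exact norm_add_le _ _
    _ ≤ _ := by gcongr

end Pool.Agent.Q302.BS
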